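import Pool.Agent.ANO3.Surf.Defs

/-!
# ANO3, module Surf: lifts of powers (package SURF-LIFT)

`exists_lift`: `H z = γ • f^m z` is a homeomorphism (`Homeomorph.smul γ` after `S.f ^ m`; the
coercion of `S.f ^ m` is `S.f^[m]`). `map_smul` etc: induction on `m` with `S.normalizes`,
`S.normalizes'`. `IsLiftPow.pow`: `(γ • f^m)^n = γ'' • f^(m n)` (induction, `map_smul`).
Scaling: induction on `m` and invariance (`IsDual.inv`). For the upper bound of `du`: if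
`du a b = 0` everything is `0`, otherwise `0 < l ≤ L` (`scale_u`), and `0 ≤ du`. `zero_iff`:
from both bounds.
`exists_conj`: `H (γ • z) = γ' • H z`.
-/

set_option autoImplicit false

open scoped UpperHalfPlane MatrixGroups
open Set Filter Topology

namespace Pool.Agent.ANO3

open Pool.Agent.ANO Pool.Agent.ANO2 Pool.Agent.ANO3.Tree

variable {S : SurfaceMap}

private theorem iter_conj_Lift (m : ℕ) : ∀ γ ∈ S.Γ, ∃ γ' ∈ S.Γ, ∀ z : ℍ,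
    S.f^[m] (γ • z) = γ' • S.f^[m] z := by
  induction m with
  | zero =>
    intro γ hγ
    exact ⟨γ, hγ, fun z => rfl⟩
  | succ m ih =>
    intro γ hγ
    obtain ⟨γ1, hγ1, h1⟩ := ih γ hγ
    obtain ⟨γ2, hγ2, h2⟩ := S.normalizes γ1 hγ1
    refine ⟨γ2, hγ2, fun z => ?_⟩
    rw [Function.iterate_succ_apply', Function.iterate_succ_apply', h1, h2]

private theorem iter_conj_Lift' (m : ℕ) : ∀ γ' ∈ S.Γ, ∃ γ ∈ S.Γ, ∀ z : ℍ,
    S.f^[m] (γ • z) = γ' • S.f^[m] z := by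
  induction m with
  | zero =>
    intro γ hγ
    exact ⟨γ, hγ, fun z => rfl⟩
  | succ m ih =>
    intro γ hγ
    obtain ⟨γ1, hγ1, h1⟩ := S.normalizes' γ hγ
    obtain ⟨γ2, hγ2, h2⟩ := ih γ1 hγ1
    refine ⟨γ2, hγ2, fun z => ?_⟩
    rw [Function.iterate_succ_apply', Function.iterate_succ_apply', h2, h1]

private theorem exists_iter_Lift (m : ℕ) : ∃ H : ℍ ≃ₜ ℍ, ∀ z, H z = S.f^[m] z := by
  induction m with
  | zero => exact ⟨Homeomorph.refl ℍ, fun z => rfl⟩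
  | succ m ih =>
    obtain ⟨H, hH⟩ := ih
    refine ⟨H.trans S.f, fun z => ?_⟩
    rw [Homeomorph.trans_apply, hH, Function.iterate_succ_apply']

theorem exists_liftPow (m : ℕ) {γ : SL(2, ℝ)} (hγ : γ ∈ S.Γ) :
    ∃ H : ℍ ≃ₜ ℍ, IsLiftPow S m H ∧ ∀ z, H z = γ • S.f^[m] z := by
  obtain ⟨H, hH⟩ := exists_iter_Lift (S := S) m
  have h1 : ∀ z, (H.trans (Homeomorph.smul γ)) z = γ • S.f^[m] z := by
    intro z
    rw [Homeomorph.trans_apply, hH]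
    rfl
  exact ⟨H.trans (Homeomorph.smul γ), ⟨γ, hγ, h1⟩, h1⟩

theorem isPeriodic_iff {w : ℍ} :
    IsPeriodic S w ↔ ∃ (m : ℕ) (H : ℍ ≃ₜ ℍ), 0 < m ∧ IsLiftPow S m H ∧ H w = w := by
  constructor
  · rintro ⟨m, γ, hm, hγ, hw⟩
    obtain ⟨H, h1, h2⟩ := exists_liftPow (S := S) m hγ
    exact ⟨m, H, hm, h1, by rw [h2, hw]⟩
  · rintro ⟨m, H, hm, ⟨γ, hγ, h⟩, hw⟩
    exact ⟨m, γ, hm, hγ, by rw [← h, hw]⟩

theorem IsLiftPow.comp {m n : ℕ} {H H' : ℍ ≃ₜ ℍ} (h : IsLiftPow S m H) (h' : IsLiftPow S n H') :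
    IsLiftPow S (m + n) (H'.trans H) := by
  obtain ⟨γ, hγ, h⟩ := h
  obtain ⟨γ', hγ', h'⟩ := h'
  obtain ⟨γ1, hγ1, h1⟩ := iter_conj_Lift m γ' hγ'
  refine ⟨γ * γ1, S.Γ.mul_mem hγ hγ1, fun z => ?_⟩
  rw [Homeomorph.trans_apply, h, h', h1, mul_smul, Function.iterate_add_apply]

theorem IsLiftPow.iterate {m : ℕ} {H : ℍ ≃ₜ ℍ} (h : IsLiftPow S m H) (n : ℕ) :
    ∃ H' : ℍ ≃ₜ ℍ, IsLiftPow S (m * n) H' ∧ ∀ z, H' z = H^[n] z := by
  induction n with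
  | zero =>
    refine ⟨Homeomorph.refl ℍ, ⟨1, S.Γ.one_mem, fun z => ?_⟩, fun z => rfl⟩
    rw [one_smul, Nat.mul_zero]
    rfl
  | succ n ih =>
    obtain ⟨H', h1, h2⟩ := ih
    refine ⟨H'.trans H, ?_, fun z => ?_⟩
    · have h3 := h.comp h1
      rwa [Nat.mul_succ, add_comm]
    · rw [Homeomorph.trans_apply, h2, Function.iterate_succ_apply']

theorem IsLiftPow.conj {m : ℕ} {H : ℍ ≃ₜ ℍ} (h : IsLiftPow S m H) :
    ∀ γ ∈ S.Γ, ∃ γ' ∈ S.Γ, ∀ z, H (γ • z) = γ' • H z := by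
  obtain ⟨γ0, hγ0, h⟩ := h
  intro γ hγ
  obtain ⟨γ1, hγ1, h1⟩ := iter_conj_Lift m γ hγ
  refine ⟨γ0 * γ1 * γ0⁻¹, S.Γ.mul_mem (S.Γ.mul_mem hγ0 hγ1) (S.Γ.inv_mem hγ0), fun z => ?_⟩
  rw [h, h, h1, mul_smul, mul_smul, inv_smul_smul]

theorem IsLiftPow.conj' {m : ℕ} {H : ℍ ≃ₜ ℍ} (h : IsLiftPow S m H) :
    ∀ γ' ∈ S.Γ, ∃ γ ∈ S.Γ, ∀ z, H (γ • z) = γ' • H z := by
  obtain ⟨γ0, hγ0, h⟩ := h
  intro γ hγ
  obtain ⟨γ1, hγ1, h1⟩ := iter_conj_Lift' m (γ0⁻¹ * γ * γ0)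
    (S.Γ.mul_mem (S.Γ.mul_mem (S.Γ.inv_mem hγ0) hγ) hγ0)
  refine ⟨γ1, hγ1, fun z => ?_⟩
  rw [h, h, h1, mul_smul, mul_smul, smul_inv_smul]

theorem IsLiftPow.smul {m : ℕ} {H : ℍ ≃ₜ ℍ} (h : IsLiftPow S m H) {γ : SL(2, ℝ)}
    (hγ : γ ∈ S.Γ) : ∃ H' : ℍ ≃ₜ ℍ, IsLiftPow S m H' ∧ ∀ z, H' z = γ • H z := by
  obtain ⟨γ0, hγ0, h⟩ := h
  obtain ⟨H', h1, h2⟩ := exists_liftPow (S := S) m (S.Γ.mul_mem hγ hγ0)
  refine ⟨H', h1, fun z => ?_⟩
  rw [h2, h, mul_smul]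

variable (F : Flat S)

theorem Flat.du_nonneg (a b : ℍ) : 0 ≤ F.du a b :=
  F.isTree_u.nonneg a b

theorem Flat.ds_nonneg (a b : ℍ) : 0 ≤ F.ds a b :=
  F.isTree_s.nonneg a b

private theorem du_iter_Lift (m : ℕ) (a b : ℍ) :
    F.l ^ m * F.du a b ≤ F.du (S.f^[m] a) (S.f^[m] b) ∧
      F.du (S.f^[m] a) (S.f^[m] b) ≤ F.L ^ m * F.du a b := by
  induction m with
  | zero => simp
  | succ m ih =>
    obtain ⟨h1, h2⟩ := ih
    rw [Function.iterate_succ_apply', Function.iterate_succ_apply']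
    set a' := S.f^[m] a
    set b' := S.f^[m] b
    obtain ⟨h3, h4⟩ := F.scale_u a' b'
    have hl : 0 < F.l := one_pos.trans F.one_lt
    have hlm : 0 < F.l ^ m := pow_pos hl m
    have h5 := F.du_nonneg a b
    refine ⟨?_, ?_⟩
    · calc F.l ^ (m + 1) * F.du a b = F.l * (F.l ^ m * F.du a b) := by ring
        _ ≤ F.l * F.du a' b' := mul_le_mul_of_nonneg_left h1 hl.le
        _ ≤ _ := h3
    · rcases (F.du_nonneg a' b').eq_or_lt with h6 | h6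
      · have h7 : F.du a b = 0 := by
          rw [← h6] at h1
          by_contra hne
          have h8 : 0 < F.du a b := lt_of_le_of_ne h5 (Ne.symm hne)
          have h9 := mul_pos hlm h8
          linarith
        rw [← h6, mul_zero] at h4
        rw [h7, mul_zero]
        exact h4
      · have hL : 0 ≤ F.L := by
          by_contra hneg
          push Not at hneg
          have h8 := mul_neg_of_neg_of_pos hneg h6
          have h9 := mul_pos hl h6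
          linarith
        calc F.du (S.f a') (S.f b') ≤ F.L * F.du a' b' := h4
          _ ≤ F.L * (F.L ^ m * F.du a b) := mul_le_mul_of_nonneg_left h2 hL
          _ = _ := by ring

private theorem ds_iter_Lift (m : ℕ) (a b : ℍ) :
    F.l ^ m * F.ds (S.f^[m] a) (S.f^[m] b) ≤ F.ds a b ∧
      F.ds a b ≤ F.L ^ m * F.ds (S.f^[m] a) (S.f^[m] b) := by
  induction m with
  | zero => simp
  | succ m ih =>
    obtain ⟨h1, h2⟩ := ih
    rw [Function.iterate_succ_apply', Function.iterate_succ_apply']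
    set a' := S.f^[m] a
    set b' := S.f^[m] b
    obtain ⟨h3, h4⟩ := F.scale_s a' b'
    have hl : 0 < F.l := one_pos.trans F.one_lt
    have hlm : 0 < F.l ^ m := pow_pos hl m
    have h5 := F.ds_nonneg (S.f a') (S.f b')
    refine ⟨?_, ?_⟩
    · calc F.l ^ (m + 1) * F.ds (S.f a') (S.f b') =
          F.l ^ m * (F.l * F.ds (S.f a') (S.f b')) := by ring
        _ ≤ F.l ^ m * F.ds a' b' := mul_le_mul_of_nonneg_left h3 hlm.le
        _ ≤ _ := h1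
    · rcases (F.ds_nonneg a' b').eq_or_lt with h6 | h6
      · have h7 : F.ds (S.f a') (S.f b') = 0 := by
          rw [← h6] at h3
          by_contra hne
          have h8 : 0 < F.ds (S.f a') (S.f b') := lt_of_le_of_ne h5 (Ne.symm hne)
          have h9 := mul_pos hl h8
          linarith
        rw [← h6, mul_zero] at h2
        rw [h7, mul_zero]
        exact h2
      · have hL : 0 ≤ F.L := by
          by_contra hneg
          push Not at hneg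
          have h8 := mul_nonpos_of_nonpos_of_nonneg hneg.le h5
          linarith
        calc F.ds a b ≤ F.L ^ m * F.ds a' b' := h2
          _ ≤ F.L ^ m * (F.L * F.ds (S.f a') (S.f b')) :=
            mul_le_mul_of_nonneg_left h4 (pow_nonneg hL m)
          _ = _ := by ring

theorem Flat.du_lift {m : ℕ} {H : ℍ ≃ₜ ℍ} (h : IsLiftPow S m H) (a b : ℍ) :
    F.l ^ m * F.du a b ≤ F.du (H a) (H b) ∧ F.du (H a) (H b) ≤ F.L ^ m * F.du a b := by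
  obtain ⟨γ, hγ, h⟩ := h
  rw [h, h, F.dual_u.inv γ hγ]
  exact du_iter_Lift F m a b

theorem Flat.ds_lift {m : ℕ} {H : ℍ ≃ₜ ℍ} (h : IsLiftPow S m H) (a b : ℍ) :
    F.l ^ m * F.ds (H a) (H b) ≤ F.ds a b ∧ F.ds a b ≤ F.L ^ m * F.ds (H a) (H b) := by
  obtain ⟨γ, hγ, h⟩ := h
  rw [h, h, F.dual_s.inv γ hγ]
  exact ds_iter_Lift F m a b

theorem Flat.du_lift_zero {m : ℕ} {H : ℍ ≃ₜ ℍ} (h : IsLiftPow S m H) (a b : ℍ) :
    F.du (H a) (H b) = 0 ↔ F.du a b = 0 := by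
  obtain ⟨h1, h2⟩ := F.du_lift h a b
  have h3 := F.du_nonneg a b
  have h4 := F.du_nonneg (H a) (H b)
  have hl : 0 < F.l ^ m := pow_pos (one_pos.trans F.one_lt) m
  constructor
  · intro h0
    by_contra hne
    have h5 := mul_pos hl (lt_of_le_of_ne h3 (Ne.symm hne))
    linarith
  · intro h0
    rw [h0, mul_zero] at h2
    exact le_antisymm h2 h4

theorem Flat.ds_lift_zero {m : ℕ} {H : ℍ ≃ₜ ℍ} (h : IsLiftPow S m H) (a b : ℍ) :
    F.ds (H a) (H b) = 0 ↔ F.ds a b = 0 := by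
  obtain ⟨h1, h2⟩ := F.ds_lift h a b
  have h3 := F.ds_nonneg a b
  have h4 := F.ds_nonneg (H a) (H b)
  have hl : 0 < F.l ^ m := pow_pos (one_pos.trans F.one_lt) m
  constructor
  · intro h0
    rw [h0, mul_zero] at h2
    exact le_antisymm h2 h3
  · intro h0
    by_contra hne
    have h5 := mul_pos hl (lt_of_le_of_ne h4 (Ne.symm hne))
    linarith

theorem Flat.mem_lift {m : ℕ} {H : ℍ ≃ₜ ℍ} (h : IsLiftPow S m H) (z : ℍ) :
    H z ∈ F.U ↔ z ∈ F.U := by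
  obtain ⟨γ, hγ, h⟩ := h
  rw [h, F.inv γ hγ]
  clear h
  induction m with
  | zero => exact Iff.rfl
  | succ m ih => rw [Function.iterate_succ_apply', F.inv_f, ih]

theorem Flat.du_smul {γ : SL(2, ℝ)} (hγ : γ ∈ S.Γ) (a b : ℍ) :
    F.du (γ • a) (γ • b) = F.du a b :=
  F.dual_u.inv γ hγ a b

theorem Flat.ds_smul {γ : SL(2, ℝ)} (hγ : γ ∈ S.Γ) (a b : ℍ) :
    F.ds (γ • a) (γ • b) = F.ds a b :=
  F.dual_s.inv γ hγ a b

theorem IsPeriodic.smul {w : ℍ} (hw : IsPeriodic S w) {γ : SL(2, ℝ)} (hγ : γ ∈ S.Γ) :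
    IsPeriodic S (γ • w) := by
  obtain ⟨m, γ0, hm, hγ0, hw⟩ := hw
  obtain ⟨γ1, hγ1, h1⟩ := iter_conj_Lift m γ hγ
  refine ⟨m, γ * γ0 * γ1⁻¹, hm, S.Γ.mul_mem (S.Γ.mul_mem hγ hγ0) (S.Γ.inv_mem hγ1), ?_⟩
  rw [h1, mul_smul, mul_smul, inv_smul_smul, hw]

theorem IsPeriodic.lift {w : ℍ} {m : ℕ} {H : ℍ ≃ₜ ℍ} (h : IsLiftPow S m H) :
    IsPeriodic S (H w) ↔ IsPeriodic S w := by
  have hconj' := h.conj'
  obtain ⟨γ, hγ, h⟩ := h
  have hcomm : ∀ (k : ℕ) (z : ℍ), S.f^[m] (S.f^[k] z) = S.f^[k] (S.f^[m] z) := by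
    intro k z
    rw [← Function.iterate_add_apply, ← Function.iterate_add_apply, add_comm]
  have hfm : ∀ z : ℍ, S.f^[m] z = γ⁻¹ • H z := by
    intro z
    rw [h, inv_smul_smul]
  constructor
  · rintro ⟨k, γ0, hk, hγ0, hw⟩
    obtain ⟨γ1, hγ1, h1⟩ := iter_conj_Lift k γ hγ
    obtain ⟨γ2, hγ2, h2⟩ := hconj' (γ0 * γ1 * γ⁻¹)
      (S.Γ.mul_mem (S.Γ.mul_mem hγ0 hγ1) (S.Γ.inv_mem hγ))
    refine ⟨k, γ2, hk, hγ2, ?_⟩
    apply H.injective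
    rw [h2, mul_smul, mul_smul, ← hfm, hcomm, ← h1, ← h, hw]
  · rintro ⟨k, γ0, hk, hγ0, hw⟩
    obtain ⟨γ1, hγ1, h1⟩ := iter_conj_Lift m γ0 hγ0
    obtain ⟨γ2, hγ2, h2⟩ := iter_conj_Lift k γ⁻¹ (S.Γ.inv_mem hγ)
    refine ⟨k, γ * γ1 * γ2, hk, S.Γ.mul_mem (S.Γ.mul_mem hγ hγ1) hγ2, ?_⟩
    rw [mul_smul, mul_smul, ← h2, ← hfm, ← hcomm, ← h1, ← h, hw]

theorem Flat.Reg.smul {F : Flat S} {w : ℍ} (hw : F.Reg w) {γ : SL(2, ℝ)} (hγ : γ ∈ S.Γ) :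
    F.Reg (γ • w) :=
  ⟨(F.inv γ hγ w).2 hw.1, hw.2.smul hγ⟩

theorem Flat.Reg.lift {F : Flat S} {w : ℍ} {m : ℕ} {H : ℍ ≃ₜ ℍ} (h : IsLiftPow S m H) :
    F.Reg (H w) ↔ F.Reg w :=
  and_congr (F.mem_lift h w) (IsPeriodic.lift h)

end Pool.Agent.ANO3
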