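import Pool.Agent.ANO3.Surf.Rev
import Pool.Agent.ANO3.Surf.Lift

/-!
# ANO3, module Surf: regular periodic points (package SURF-REG)

`eq_of_zero`: `emb` and `ℍ` is Hausdorff: every neighbourhood of `a` contains `z`.
The s-versions: apply the u-version to `F.rev` (`reg_rev`; `F.rev.du = F.ds` by `rfl`).

`eq_of_fixed`: `du w z = du (H w) (H z) ≥ l^m du w z`, `l^m > 1`, so `du w z = 0`; the same for
`ds`; `eq_of_zero`.

`pos_u`: `H` a lift of a power with `H w = w` (`isPeriodic_iff`). If `du w a = 0` then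
`du w (H^[n] a) = 0` (`du_lift_zero`) and `ds w (H^[n] a) ≤ l^(-m n) ds w a → 0`, so `H^[n] a ∈ U`
for large `n` by `emb` (`U` is a neighbourhood of `w`), hence `a ∈ U` (`mem_lift`).

`bdd_u`: let `N` be a compact neighbourhood of `w`, `ε₀` from `emb`. Choose `n` with
`l^(-m n) b < ε₀` and `ε > 0` with `L^(m n) ε < ε₀`. If `du w z ≤ ε` and `ds w z ≤ b` then
`H^[n] z ∈ N`, so `z` is in the compact set `(H^[n])⁻¹ N` (use `IsLiftPow.iterate`).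

`trivial_u`: `du w (γ • w) = 0`; `H^[n] (γ • w) = γ_n • w` with `γ_n ∈ Γ` (`conj`, `H w = w`),
`du w (γ_n • w) = 0`, `ds w (γ_n • w) ≤ l^(-m n) ds w (γ • w) → 0`, so `γ_n • w → w` (`emb`).
By `proper` (with a compact neighbourhood of `w`) only finitely many different maps occur for large
`n` and one of them fixes `w` (a finite set of points of the form `γ_n • w` which tends to `w`
contains `w`); `γ_n • w = w` gives `H^[n] (γ • w) = w = H^[n] w`, so `γ • w = w`; `free`.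
-/

set_option autoImplicit false

open scoped UpperHalfPlane MatrixGroups
open Set Filter Topology

namespace Pool.Agent.ANO3

open Pool.Agent.ANO Pool.Agent.ANO2 Pool.Agent.ANO3.Tree

variable {S : SurfaceMap} {F : Flat S}

theorem Flat.eq_of_zero {a z : ℍ} (ha : a ∈ F.U) (h1 : F.du a z = 0) (h2 : F.ds a z = 0) :
    z = a := by
  by_contra hne
  obtain ⟨ε, hε, h⟩ := F.emb a ha {z}ᶜ (isOpen_compl_singleton.mem_nhds fun h => hne h.symm)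
  exact h z (by rw [h1]; exact hε) (by rw [h2]; exact hε) rfl

theorem Flat.eq_of_fixed {w z : ℍ} (hw : w ∈ F.U) {m : ℕ} (hm : 0 < m) {H : ℍ ≃ₜ ℍ}
    (hH : IsLiftPow S m H) (h1 : H w = w) (h2 : H z = z) : z = w := by
  have hl : 1 < F.l ^ m := one_lt_pow₀ F.one_lt hm.ne'
  have hu := (F.du_lift hH w z).1
  have hs := (F.ds_lift hH w z).1
  rw [h1, h2] at hu hs
  have hu0 := F.du_nonneg w z
  have hs0 := F.ds_nonneg w z
  refine F.eq_of_zero hw ?_ ?_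
  · nlinarith
  · nlinarith

/-- a lift of a power which fixes `w` and contracts `ds` -/
private theorem key_Reg {w : ℍ} (hw : F.Reg w) (b : ℝ) {ε : ℝ} (hε : 0 < ε) :
    ∃ (m : ℕ) (H : ℍ ≃ₜ ℍ), IsLiftPow S m H ∧ H w = w ∧
      ∀ z, F.ds w z ≤ b → F.ds w (H z) < ε := by
  obtain ⟨-, hP⟩ := hw
  obtain ⟨m, H, hm, hH, hHw⟩ := isPeriodic_iff.1 hP
  have hl : 1 < F.l ^ m := one_lt_pow₀ F.one_lt hm.ne'
  obtain ⟨n, hn⟩ := pow_unbounded_of_one_lt (b / ε) hl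
  obtain ⟨H', hH', h'⟩ := hH.iterate n
  have hw' : H' w = w := by
    rw [h']
    exact Function.iterate_fixed hHw n
  refine ⟨m * n, H', hH', hw', fun z hz => ?_⟩
  have h1 := (F.ds_lift hH' w z).1
  rw [hw'] at h1
  have h2 : 0 < F.l ^ (m * n) := pow_pos (zero_lt_one.trans F.one_lt) _
  rw [← pow_mul, div_lt_iff₀ hε] at hn
  by_contra h3
  rw [not_lt] at h3
  have h4 : F.l ^ (m * n) * ε ≤ F.l ^ (m * n) * F.ds w (H' z) :=
    mul_le_mul_of_nonneg_left h3 h2.le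
  linarith

theorem Flat.Reg.pos_u {w a : ℍ} (hw : F.Reg w) (ha : a ∉ F.U) : 0 < F.du w a := by
  refine lt_of_le_of_ne (F.du_nonneg w a) fun h0 => ha ?_
  obtain ⟨ε, hε, h⟩ := F.emb w hw.1 F.U (F.isOpen.mem_nhds hw.1)
  obtain ⟨m, H, hH, hHw, hs⟩ := key_Reg hw (F.ds w a) hε
  have h1 : F.du w (H a) = 0 := by
    have h2 := (F.du_lift_zero hH w a).2 h0.symm
    rwa [hHw] at h2
  exact (F.mem_lift hH a).1 (h (H a) (by rw [h1]; exact hε) (hs a le_rfl))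

theorem Flat.Reg.pos_s {w a : ℍ} (hw : F.Reg w) (ha : a ∉ F.U) : 0 < F.ds w a := by
  have h1 : F.rev.Reg w := Flat.reg_rev.2 hw
  exact h1.pos_u ha

theorem Flat.Reg.leaf_u {w z : ℍ} (hw : F.Reg w) (h : F.du w z = 0) : z ∈ F.U := by
  by_contra hz
  exact (hw.pos_u hz).ne' h

theorem Flat.Reg.leaf_s {w z : ℍ} (hw : F.Reg w) (h : F.ds w z = 0) : z ∈ F.U := by
  by_contra hz
  exact (hw.pos_s hz).ne' h

theorem Flat.Reg.bdd_u {w : ℍ} (hw : F.Reg w) (b : ℝ) : ∃ ε > 0, ∃ K : Set ℍ, IsCompact K ∧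
    ∀ z, F.du w z ≤ ε → F.ds w z ≤ b → z ∈ K := by
  obtain ⟨N, hN, hNw⟩ := exists_compact_mem_nhds w
  obtain ⟨ε, hε, h⟩ := F.emb w hw.1 N hNw
  obtain ⟨m, H, hH, hHw, hs⟩ := key_Reg hw b hε
  have hL : 0 < |F.L| ^ m + 1 := by positivity
  refine ⟨ε / (|F.L| ^ m + 1), div_pos hε hL, H ⁻¹' N, (H.isCompact_preimage).2 hN,
    fun z h1 h2 => h (H z) ?_ (hs z h2)⟩
  have h3 := (F.du_lift hH w z).2
  rw [hHw] at h3
  have h4 := F.du_nonneg w z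
  rw [le_div_iff₀ hL] at h1
  have h5 : F.L ^ m * F.du w z ≤ |F.L| ^ m * F.du w z := by
    refine mul_le_mul_of_nonneg_right ?_ h4
    rw [← abs_pow]
    exact le_abs_self _
  by_cases h6 : F.du w z = 0
  · rw [h6, mul_zero] at h3
    linarith
  · have h7 : 0 < F.du w z := lt_of_le_of_ne h4 (Ne.symm h6)
    nlinarith

theorem Flat.Reg.bdd_s {w : ℍ} (hw : F.Reg w) (b : ℝ) : ∃ ε > 0, ∃ K : Set ℍ, IsCompact K ∧
    ∀ z, F.ds w z ≤ ε → F.du w z ≤ b → z ∈ K := by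
  have h1 : F.rev.Reg w := Flat.reg_rev.2 hw
  exact h1.bdd_u b

/-- the orbit of `w` is discrete -/
private theorem discrete_Reg (S : SurfaceMap) (w : ℍ) :
    ∃ N ∈ 𝓝 w, ∀ γ ∈ S.Γ, γ • w ∈ N → γ • w = w := by
  obtain ⟨K, hK, hKw⟩ := exists_compact_mem_nhds w
  have hfin : ((fun γ : SL(2, ℝ) => γ • w) ''
      {γ : SL(2, ℝ) | γ ∈ S.Γ ∧ ∃ z ∈ K, γ • z ∈ K}).Finite := (S.proper K hK).image _
  have hfin' : ((fun γ : SL(2, ℝ) => γ • w) ''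
      {γ : SL(2, ℝ) | γ ∈ S.Γ ∧ ∃ z ∈ K, γ • z ∈ K} \ {w}).Finite := hfin.subset sdiff_subset
  refine ⟨K ∩ ((fun γ : SL(2, ℝ) => γ • w) ''
      {γ : SL(2, ℝ) | γ ∈ S.Γ ∧ ∃ z ∈ K, γ • z ∈ K} \ {w})ᶜ, inter_mem hKw
        (hfin'.isClosed.isOpen_compl.mem_nhds fun h => h.2 rfl), fun γ hγ h => ?_⟩
  by_contra hne
  exact h.2 ⟨⟨γ, ⟨hγ, w, mem_of_mem_nhds hKw, h.1⟩, rfl⟩, hne⟩

theorem Flat.Reg.trivial_u {w : ℍ} (hw : F.Reg w) {γ : SL(2, ℝ)} (hγ : γ ∈ S.Γ)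
    (h : F.du w (γ • w) = 0) (z : ℍ) : γ • z = z := by
  obtain ⟨N, hN, hNw⟩ := discrete_Reg S w
  obtain ⟨ε, hε, he⟩ := F.emb w hw.1 N hN
  obtain ⟨m, H, hH, hHw, hs⟩ := key_Reg hw (F.ds w (γ • w)) hε
  have h1 : F.du w (H (γ • w)) = 0 := by
    have h2 := (F.du_lift_zero hH w (γ • w)).2 h
    rwa [hHw] at h2
  have h3 : H (γ • w) ∈ N := he _ (by rw [h1]; exact hε) (hs _ le_rfl)
  obtain ⟨γ', hγ', hc⟩ := hH.conj γ hγ
  have h4 : H (γ • w) = γ' • w := by rw [hc, hHw]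
  rw [h4] at h3
  have h5 : H (γ • w) = H w := by rw [h4, hNw γ' hγ' h3, hHw]
  exact S.free γ hγ w (H.injective h5) z

theorem Flat.Reg.trivial_s {w : ℍ} (hw : F.Reg w) {γ : SL(2, ℝ)} (hγ : γ ∈ S.Γ)
    (h : F.ds w (γ • w) = 0) (z : ℍ) : γ • z = z := by
  have h1 : F.rev.Reg w := Flat.reg_rev.2 hw
  exact h1.trivial_u hγ h z

/-- only finitely many translates of `w` are close to `w` in one tree and at a bounded distance in
the other one -/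
theorem Flat.Reg.finite_u {w : ℍ} (hw : F.Reg w) (b : ℝ) : ∃ ε > 0,
    {z : ℍ | (∃ γ ∈ S.Γ, z = γ • w) ∧ F.du w z ≤ ε ∧ F.ds w z ≤ b}.Finite := by
  obtain ⟨ε, hε, K, hK, h⟩ := hw.bdd_u b
  refine ⟨ε, hε, ((S.proper (insert w K) (hK.insert w)).image
    (fun γ : SL(2, ℝ) => γ • w)).subset ?_⟩
  rintro z ⟨⟨γ, hγ, rfl⟩, h1, h2⟩
  exact ⟨γ, ⟨hγ, w, mem_insert w K, mem_insert_of_mem w (h _ h1 h2)⟩, rfl⟩

end Pool.Agent.ANO3
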