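import Pool.Agent.ANO3.Surf.Rev
import Pool.Agent.ANO3.Tree.Path

/-!
# ANO3, module Surf: charts (package SURF-LOCAL)

`IsChart.swap`: compose with the exchange of the coordinates, a linear homeomorphism of `ℂ`
(`OpenPartialHomeomorph.transHomeomorph`).

`exists_arc_chart`: `D.target` is open, take `t₀` such that the closed ball of radius `t₀` around
`D a` is contained in it; `zp = D.symm (D a + t)`, `zm = D.symm (D a - t)` (points of `ℍ` by
`sub`).

`two_arms` (DIR): suppose that no two of `a, b, c` are in the same arm at `z` and let `A`, `B`, `C`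
be
their arms (`{x | SameArm du z a x}` and so on): open (`isOpen_sameArm`) and pairwise disjoint
(`SameArm.trans`). Let `l = {z' | du z z' = 0}` (contained in `U`, connected by `dual_u.conn` and
symmetry). For `z' ∈ l` and a chart `D` at `z'` let `N⁺`, `N⁻` be the sets of the points `x` of the
source with `(D x).re > (D z').re`, resp. `<`. As `du z x = du z' x = |(D x).re - (D z').re|` the
formula of the chart shows: two points of `N⁺` are in the same arm at `z`, two points of `N⁻` too.
Let `E_A = l ∩ closure A`. It is not empty: take a path from `a` to `z`, let `s₀` be the first time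
at which it is in `l`; before `s₀` it is in `A` (`sameArm_of_connected`). It is closed. It is open
in `l`: let `z' ∈ E_A` with a chart `D` at `z'`; there is a point of `A` in the source, it is in
`N⁺`
or `N⁻`, say `N⁺`, so `N⁺ ⊆ A`. For `z'' ∈ l` in the source `(D z'').re = (D z').re`, so `z''` is
in the closure of `N⁺` (`D.target` is open). So `E_A = l`, as `l` is connected, and the same holds
for `B`, `C`. Hence `z` is in the closures of `A`, `B`, `C`, and in a chart at `z` each of
`A`, `B`, `C` contains `N⁺` or `N⁻` (both are not empty), so two of them meet: contradiction.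

`twoSided`: `side du z zm zp p = 0` and `0 < du z p` means that `p` is not in the arms of `zm`,
`zp` (`side_eq_zero_iff`, `sameArm_iff_gp`); `zm`, `zp` are in different arms (`gp du z zm zp = 0`).

`sdist_local`: `|sdist z'| = du w z' = |(D z').re - (D z).re|` (`abs_sdist`, `du w z = 0`), the
points of `N⁺` are in one arm, the points of `N⁻` in the other one (they are not in the same arm,
and
there are only two arms), so `sdist` is positive on one side and negative on the other one.
-/

set_option autoImplicit false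

open scoped UpperHalfPlane MatrixGroups
open Set Filter Topology

namespace Pool.Agent.ANO3

open Pool.Agent.ANO Pool.Agent.ANO2 Pool.Agent.ANO3.Tree

variable {S : SurfaceMap} {F : Flat S}

/-- the exchange of the coordinates -/
private noncomputable def swapL_Local : ℂ ≃L[ℝ] ℂ :=
  Complex.equivRealProdCLM.trans
    ((ContinuousLinearEquiv.prodComm ℝ ℝ ℝ).trans Complex.equivRealProdCLM.symm)

private theorem swapL_re_Local (z : ℂ) : (swapL_Local z).re = z.im := by
  simp [swapL_Local]

private theorem swapL_im_Local (z : ℂ) : (swapL_Local z).im = z.re := by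
  simp [swapL_Local]

theorem Flat.IsChart.swap {a : ℍ} {D : OpenPartialHomeomorph ℂ ℂ} (hD : F.IsChart a D) :
    ∃ D' : OpenPartialHomeomorph ℂ ℂ, F.rev.IsChart a D' ∧ D'.source = D.source ∧
      ∀ z, (D' z).re = (D z).im ∧ (D' z).im = (D z).re := by
  have hre : ∀ z, ((D.transHomeomorph swapL_Local.toHomeomorph) z).re = (D z).im := fun z =>
    swapL_re_Local (D z)
  have him : ∀ z, ((D.transHomeomorph swapL_Local.toHomeomorph) z).im = (D z).re := fun z =>
    swapL_im_Local (D z)
  refine ⟨D.transHomeomorph swapL_Local.toHomeomorph, ⟨hD.mem, hD.sub, ?_, ?_, ?_, ?_⟩, rfl,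
    fun z => ⟨hre z, him z⟩⟩
  · exact swapL_Local.contDiff.comp_contDiffOn hD.smooth
  · exact hD.smooth_symm.comp swapL_Local.symm.contDiff.contDiffOn fun z hz => hz
  · intro z z' hz hz'
    rw [hre, hre]
    exact hD.ds z z' hz hz'
  · intro z z' hz hz'
    rw [him, him]
    exact hD.du z z' hz hz'

/-- the chart is a chart at all points of its source -/
theorem Flat.IsChart.at {a b : ℍ} {D : OpenPartialHomeomorph ℂ ℂ} (hD : F.IsChart a D)
    (hb : (b : ℂ) ∈ D.source) : F.IsChart b D :=
  ⟨hb, hD.sub, hD.smooth, hD.smooth_symm, hD.du, hD.ds⟩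

/-- the point of the upper half plane with given coordinates -/
private theorem exists_pt_Local {a : ℍ} {D : OpenPartialHomeomorph ℂ ℂ} (hD : F.IsChart a D)
    {x : ℂ} (hx : x ∈ D.target) : ∃ z : ℍ, (z : ℂ) = D.symm x ∧ (z : ℂ) ∈ D.source ∧
      D z = x := by
  obtain ⟨z, -, hz⟩ := hD.sub _ (D.map_target hx)
  refine ⟨z, hz, ?_, ?_⟩
  · rw [hz]
    exact D.map_target hx
  · rw [hz]
    exact D.right_inv hx

theorem Flat.exists_arc_chart {a : ℍ} {D : OpenPartialHomeomorph ℂ ℂ} (hD : F.IsChart a D) :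
    ∃ t₀ > (0 : ℝ), ∀ t : ℝ, 0 < t → t < t₀ → ∃ zm zp : ℍ, (zm : ℂ) ∈ D.source ∧
      (zp : ℂ) ∈ D.source ∧ D zm = D a - (t : ℂ) ∧ D zp = D a + (t : ℂ) ∧
        IsArc F.du a zm zp t := by
  obtain ⟨t₀, ht₀, hball⟩ := Metric.isOpen_iff.mp D.open_target _ (D.map_source hD.mem)
  refine ⟨t₀, ht₀, fun t ht htt => ?_⟩
  have h1 : D a - (t : ℂ) ∈ D.target := hball (by
    rw [Metric.mem_ball, dist_eq_norm, sub_sub_cancel_left, norm_neg, Complex.norm_real,
      Real.norm_of_nonneg ht.le]
    exact htt)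
  have h2 : D a + (t : ℂ) ∈ D.target := hball (by
    rw [Metric.mem_ball, dist_eq_norm, add_sub_cancel_left, Complex.norm_real,
      Real.norm_of_nonneg ht.le]
    exact htt)
  obtain ⟨zm, -, hm1, hm2⟩ := exists_pt_Local hD h1
  obtain ⟨zp, -, hp1, hp2⟩ := exists_pt_Local hD h2
  refine ⟨zm, zp, hm1, hp1, hm2, hp2, ht, ?_, ?_, ?_⟩
  · rw [hD.du _ _ hD.mem hm1, hm2, Complex.sub_re, Complex.ofReal_re, sub_sub_cancel,
      abs_of_pos ht]
  · rw [hD.du _ _ hD.mem hp1, hp2, Complex.add_re, Complex.ofReal_re, sub_add_cancel_left,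
      abs_neg, abs_of_pos ht]
  · rw [hD.du _ _ hm1 hp1, hp2, hm2, Complex.add_re, Complex.ofReal_re, Complex.sub_re,
      Complex.ofReal_re]
    have h3 : (D a).re - t - ((D a).re + t) = -(2 * t) := by ring
    rw [h3, abs_neg, abs_of_pos (by linarith)]

theorem Flat.exists_isArc {a : ℍ} (ha : a ∈ F.U) : ∃ t zm zp, IsArc F.du a zm zp t := by
  obtain ⟨D, hD⟩ := F.exists_isChart ha
  obtain ⟨t₀, ht₀, h⟩ := Flat.exists_arc_chart hD
  obtain ⟨zm, zp, -, -, -, -, h1⟩ := h (t₀ / 2) (by linarith) (by linarith)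
  exact ⟨_, zm, zp, h1⟩

/-- points on the two sides, near a point of the source -/
private theorem mem_closure_side_Local {a w : ℍ} {D : OpenPartialHomeomorph ℂ ℂ}
    (hD : F.IsChart a D) (hw : (w : ℂ) ∈ D.source) {s : ℝ} (hs : s ≠ 0) :
    w ∈ closure {x : ℍ | (x : ℂ) ∈ D.source ∧ 0 < s * ((D x).re - (D w).re)} := by
  rw [UpperHalfPlane.isOpenEmbedding_coe.isInducing.closure_eq_preimage_closure_image]
  show (w : ℂ) ∈ closure _
  have hcont : Tendsto (fun t : ℝ => D w + ((s * t : ℝ) : ℂ)) (𝓝[>] 0) (𝓝 (D w)) := by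
    have h1 : Continuous fun t : ℝ => D w + ((s * t : ℝ) : ℂ) := by fun_prop
    have h2 := h1.tendsto 0
    simp only [mul_zero, Complex.ofReal_zero, add_zero] at h2
    exact h2.mono_left nhdsWithin_le_nhds
  have hsymm : Tendsto (fun t : ℝ => D.symm (D w + ((s * t : ℝ) : ℂ))) (𝓝[>] 0) (𝓝 (w : ℂ)) := by
    have h1 := (D.continuousAt_symm (D.map_source hw)).tendsto
    rw [D.left_inv hw] at h1
    exact h1.comp hcont
  refine mem_closure_of_tendsto hsymm ?_
  have hev : ∀ᶠ t : ℝ in 𝓝[>] 0, D w + ((s * t : ℝ) : ℂ) ∈ D.target :=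
    hcont.eventually (D.open_target.mem_nhds (D.map_source hw))
  filter_upwards [hev, self_mem_nhdsWithin] with t ht ht0
  obtain ⟨z, hz, hz1, hz2⟩ := exists_pt_Local hD ht
  refine ⟨z, ⟨hz1, ?_⟩, hz⟩
  rw [hz2, Complex.add_re, Complex.ofReal_re, add_sub_cancel_left]
  have h3 : (0 : ℝ) < t := ht0
  have h4 : s * (s * t) = s ^ 2 * t := by ring
  rw [h4]
  positivity

/-- the sides in a chart at a point of the leaf of `z` are contained in arms at `z` -/
private theorem side_sameArm_Local {z z' : ℍ} {D : OpenPartialHomeomorph ℂ ℂ}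
    (hD : F.IsChart z' D) (hz : F.du z z' = 0) {x y : ℍ} (hx : (x : ℂ) ∈ D.source)
    (hy : (y : ℂ) ∈ D.source) {s : ℝ} (hsx : 0 < s * ((D x).re - (D z').re))
    (hsy : 0 < s * ((D y).re - (D z').re)) : SameArm F.du z x y := by
  have h := F.isTree_u
  unfold SameArm
  rw [h.congr_left hz x, h.congr_left hz y, hD.du _ _ hD.mem hx, hD.du _ _ hD.mem hy,
    hD.du _ _ hx hy]
  rcases lt_trichotomy s 0 with hs | hs | hs
  · have h1 : (D x).re - (D z').re < 0 := by
      by_contra hcon
      rw [not_lt] at hcon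
      have := mul_nonpos_of_nonpos_of_nonneg hs.le hcon
      linarith
    have h2 : (D y).re - (D z').re < 0 := by
      by_contra hcon
      rw [not_lt] at hcon
      have := mul_nonpos_of_nonpos_of_nonneg hs.le hcon
      linarith
    rw [abs_of_pos (show 0 < (D z').re - (D x).re by linarith),
      abs_of_pos (show 0 < (D z').re - (D y).re by linarith), abs_lt]
    constructor <;> linarith
  · rw [hs, zero_mul] at hsx
    exact absurd hsx (lt_irrefl _)
  · have h1 : 0 < (D x).re - (D z').re := (pos_iff_pos_of_mul_pos hsx).mp hs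
    have h2 : 0 < (D y).re - (D z').re := (pos_iff_pos_of_mul_pos hsy).mp hs
    rw [abs_of_neg (show (D z').re - (D x).re < 0 by linarith),
      abs_of_neg (show (D z').re - (D y).re < 0 by linarith), abs_lt]
    constructor <;> linarith

/-- an arm whose closure contains a point of the leaf contains one of the two sides in a chart -/
private theorem side_subset_Local {z z' a : ℍ} {D : OpenPartialHomeomorph ℂ ℂ}
    (hD : F.IsChart z' D) (hz : F.du z z' = 0)
    (hcl : z' ∈ closure {x | SameArm F.du z a x}) :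
    ∃ s : ℝ, (s = 1 ∨ s = -1) ∧ ∀ x : ℍ, (x : ℂ) ∈ D.source →
      0 < s * ((D x).re - (D z').re) → SameArm F.du z a x := by
  have h := F.isTree_u
  have hopen : IsOpen {x : ℍ | (x : ℂ) ∈ D.source} :=
    D.open_source.preimage UpperHalfPlane.continuous_coe
  obtain ⟨y, hy, hya⟩ := mem_closure_iff.mp hcl _ hopen hD.mem
  have hpos := (SameArm.pos h hya).2
  rw [h.congr_left hz y, hD.du _ _ hD.mem hy, abs_pos, sub_ne_zero] at hpos
  rcases lt_or_gt_of_ne hpos with h1 | h1
  · refine ⟨1, Or.inl rfl, fun x hx hx0 => ?_⟩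
    exact SameArm.trans h hya (side_sameArm_Local hD hz hy hx (s := 1) (by linarith) hx0)
  · refine ⟨-1, Or.inr rfl, fun x hx hx0 => ?_⟩
    exact SameArm.trans h hya (side_sameArm_Local hD hz hy hx (s := -1) (by linarith) hx0)

/-- the leaf of `z` is contained in the closure of every arm at `z` -/
private theorem mem_closure_arm_Local {z : ℍ} (hz : ∀ z', F.du z z' = 0 → z' ∈ F.U) {a : ℍ}
    (ha : 0 < F.du z a) : z ∈ closure {x | SameArm F.du z a x} := by
  have h := F.isTree_u
  have hc := F.dual_u.cont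
  set A : Set ℍ := {x | SameArm F.du z a x} with hA
  have hAo : IsOpen A := isOpen_sameArm h hc z a
  have haA : a ∈ A := sameArm_self h ha
  have hzA : z ∉ A := fun h' => by
    have := (SameArm.pos h h').2
    rw [h.self] at this
    exact lt_irrefl _ this
  have hcl : closure A ⊆ A ∪ {x | F.du z x = 0} := by
    intro x hx
    by_cases h0 : F.du z x = 0
    · exact Or.inr h0
    · left
      by_contra hcon
      have hpos : 0 < F.du z x := lt_of_le_of_ne (h.nonneg _ _) (Ne.symm h0)
      obtain ⟨y, hy, hyA⟩ := mem_closure_iff.mp hx _ (isOpen_not_sameArm h hc z a)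
        ⟨hpos, hcon⟩
      exact hy.2 hyA
  -- the closure meets the leaf
  have hne : ∃ z', F.du z z' = 0 ∧ z' ∈ closure A := by
    by_contra hcon
    push Not at hcon
    have hclosed : IsClosed A := by
      refine isClosed_of_closure_subset fun x hx => ?_
      rcases hcl hx with h1 | h1
      · exact h1
      · exact absurd hx (hcon x h1)
    have huniv : A = univ := IsClopen.eq_univ ⟨hclosed, hAo⟩ ⟨a, haA⟩
    exact hzA (by rw [huniv]; exact mem_univ z)
  have hleaf : IsPreconnected {x | F.du z x = 0} := by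
    have h1 := (F.dual_u.conn z).isPreconnected
    have h2 : {x | F.du x z = 0} = {x | F.du z x = 0} := by
      ext x
      show F.du x z = 0 ↔ F.du z x = 0
      rw [h.symm]
    rwa [h2] at h1
  set O : Set ℍ := {w | ∃ z' D, F.du z z' = 0 ∧ z' ∈ closure A ∧ F.IsChart z' D ∧
    (w : ℂ) ∈ D.source} with hO
  have hOo : IsOpen O := by
    have hOe : O = ⋃ (z' : ℍ) (D : OpenPartialHomeomorph ℂ ℂ) (_ : F.du z z' = 0 ∧
        z' ∈ closure A ∧ F.IsChart z' D), {w : ℍ | (w : ℂ) ∈ D.source} := by
      ext w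
      simp only [hO, mem_iUnion, mem_ofPred_eq, exists_prop]
      constructor
      · rintro ⟨z', D, h1, h2, h3, h4⟩
        exact ⟨z', D, ⟨h1, h2, h3⟩, h4⟩
      · rintro ⟨z', D, ⟨h1, h2, h3⟩, h4⟩
        exact ⟨z', D, h1, h2, h3, h4⟩
    rw [hOe]
    exact isOpen_iUnion fun z' => isOpen_iUnion fun D => isOpen_iUnion fun _ =>
      D.open_source.preimage UpperHalfPlane.continuous_coe
  have hkey : ∀ w, F.du z w = 0 → w ∈ O → w ∈ closure A := by
    rintro w hw ⟨z', D, h1, h2, h3, h4⟩
    obtain ⟨s, hs, hsub⟩ := side_subset_Local h3 h1 h2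
    have hs0 : s ≠ 0 := by
      rcases hs with rfl | rfl <;> norm_num
    have hre : (D w).re = (D z').re := by
      have h5 : F.du z' w = 0 := by
        rw [← h.congr_left h1 w]
        exact hw
      rw [h3.du _ _ h3.mem h4, abs_eq_zero, sub_eq_zero] at h5
      exact h5.symm
    refine closure_mono ?_ (mem_closure_side_Local h3 h4 hs0)
    rintro x ⟨hx, hx0⟩
    rw [hre] at hx0
    exact hsub x hx hx0
  by_contra hcon
  obtain ⟨z', hz', hz'A⟩ := hne
  obtain ⟨D, hD⟩ := F.exists_isChart (hz z' hz')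
  obtain ⟨w, hw, hwO, hwA⟩ := hleaf O (closure A)ᶜ hOo isClosed_closure.isOpen_compl
    (fun w hw => by
      by_cases hwA : w ∈ closure A
      · obtain ⟨D', hD'⟩ := F.exists_isChart (hz w hw)
        exact Or.inl ⟨w, D', hw, hwA, hD', hD'.mem⟩
      · exact Or.inr hwA)
    ⟨z', hz', z', D, hz', hz'A, hD, hD.mem⟩ ⟨z, h.self z, hcon⟩
  exact hwA (hkey w hw hwO)

theorem Flat.two_arms {z : ℍ} (hz : ∀ z', F.du z z' = 0 → z' ∈ F.U) {a b c : ℍ}
    (ha : 0 < F.du z a) (hb : 0 < F.du z b) (hc : 0 < F.du z c) :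
    SameArm F.du z a b ∨ SameArm F.du z a c ∨ SameArm F.du z b c := by
  have h := F.isTree_u
  obtain ⟨D, hD⟩ := F.exists_isChart (hz z (h.self z))
  obtain ⟨sa, hsa, ha'⟩ := side_subset_Local hD (h.self z) (mem_closure_arm_Local hz ha)
  obtain ⟨sb, hsb, hb'⟩ := side_subset_Local hD (h.self z) (mem_closure_arm_Local hz hb)
  obtain ⟨sc, hsc, hc'⟩ := side_subset_Local hD (h.self z) (mem_closure_arm_Local hz hc)
  have key : ∀ {s : ℝ}, s ≠ 0 → ∀ {p q : ℍ},
      (∀ x : ℍ, (x : ℂ) ∈ D.source → 0 < s * ((D x).re - (D z).re) → SameArm F.du z p x) →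
      (∀ x : ℍ, (x : ℂ) ∈ D.source → 0 < s * ((D x).re - (D z).re) → SameArm F.du z q x) →
      SameArm F.du z p q := by
    intro s hs p q hp hq
    obtain ⟨x, -, hx, hx0⟩ := mem_closure_iff.mp (mem_closure_side_Local hD hD.mem hs) univ
      isOpen_univ (mem_univ _)
    exact SameArm.trans h (hp x hx hx0) (SameArm.symm h (hq x hx hx0))
  have h1 : (1 : ℝ) ≠ 0 := one_ne_zero
  have h2 : (-1 : ℝ) ≠ 0 := neg_ne_zero.mpr one_ne_zero
  rcases hsa with rfl | rfl <;> rcases hsb with rfl | rfl <;> rcases hsc with rfl | rfl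
  · exact Or.inl (key h1 ha' hb')
  · exact Or.inl (key h1 ha' hb')
  · exact Or.inr (Or.inl (key h1 ha' hc'))
  · exact Or.inr (Or.inr (key h2 hb' hc'))
  · exact Or.inr (Or.inr (key h1 hb' hc'))
  · exact Or.inr (Or.inl (key h2 ha' hc'))
  · exact Or.inl (key h2 ha' hb')
  · exact Or.inl (key h2 ha' hb')

theorem Flat.twoSided {z : ℍ} (hz : ∀ z', F.du z z' = 0 → z' ∈ F.U) {zm zp : ℍ} {t : ℝ}
    (h : IsArc F.du z zm zp t) : TwoSided F.du z zm zp univ := by
  have hT := F.isTree_u
  intro p _ hp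
  by_contra hcon
  have hpos : 0 < F.du z p := lt_of_le_of_ne (hT.nonneg _ _) (Ne.symm hcon)
  rw [side_eq_zero_iff hT h] at hp
  have h1 : gp F.du z zm zp = 0 := by
    unfold gp
    rw [h.left, h.right, h.sum]
    ring
  rcases Flat.two_arms hz (by rw [h.left]; exact h.pos) (by rw [h.right]; exact h.pos) hpos
    with h2 | h2 | h2
  · rw [sameArm_iff_gp, h1] at h2
    exact lt_irrefl _ h2
  · rw [sameArm_iff_gp, gp_comm hT, hp.2] at h2
    exact lt_irrefl _ h2
  · rw [sameArm_iff_gp, gp_comm hT, hp.1] at h2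
    exact lt_irrefl _ h2

theorem Flat.sdist_local {w : ℍ} (hw : ∀ z', F.du w z' = 0 → z' ∈ F.U) {zm zp : ℍ} {t : ℝ}
    (h : IsArc F.du w zm zp t) {z : ℍ} (hz : F.du w z = 0) {D : OpenPartialHomeomorph ℂ ℂ}
    (hD : F.IsChart z D) : ∃ σ : ℝ, (σ = 1 ∨ σ = -1) ∧ ∀ z' : ℍ, (z' : ℂ) ∈ D.source →
      sdist F.du w zm zp z' = σ * ((D z').re - (D z).re) := by
  have hT := F.isTree_u
  have h2 := Flat.twoSided hw h
  have habs : ∀ x : ℍ, (x : ℂ) ∈ D.source →
      |sdist F.du w zm zp x| = |(D x).re - (D z).re| := by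
    intro x hx
    rw [abs_sdist hT h2 (mem_univ x), hT.congr_left hz x, hD.du _ _ hD.mem hx, abs_sub_comm]
  have hopp : ∀ x y : ℍ, (x : ℂ) ∈ D.source → (y : ℂ) ∈ D.source → (D z).re < (D x).re →
      (D y).re < (D z).re → gp F.du w x y = 0 := by
    intro x y hx hy h3 h4
    unfold gp
    rw [hT.congr_left hz x, hT.congr_left hz y, hD.du _ _ hD.mem hx, hD.du _ _ hD.mem hy,
      hD.du _ _ hx hy, abs_of_neg (by linarith), abs_of_pos (by linarith),
      abs_of_pos (by linarith)]
    ring
  have hsame : ∀ x y : ℍ, (x : ℂ) ∈ D.source → (y : ℂ) ∈ D.source → (D z).re < (D x).re →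
      (D z).re < (D y).re → 0 < gp F.du w x y := by
    intro x y hx hy h3 h4
    rw [← sameArm_iff_gp]
    exact side_sameArm_Local hD hz hx hy (s := 1) (by linarith) (by linarith)
  obtain ⟨t₀, ht₀, harc⟩ := Flat.exists_arc_chart hD
  obtain ⟨-, p, -, hp, -, hDp, -⟩ := harc (t₀ / 2) (by linarith) (by linarith)
  have hpre : (D z).re < (D p).re := by
    rw [hDp, Complex.add_re, Complex.ofReal_re]
    linarith
  have hp0 : sdist F.du w zm zp p ≠ 0 := by
    intro h0
    have h3 := habs p hp
    rw [h0, abs_zero] at h3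
    have h4 := abs_pos.mpr (sub_pos.mpr hpre).ne'
    rw [← h3] at h4
    exact lt_irrefl _ h4
  rcases lt_or_gt_of_ne hp0 with h3 | h3
  · refine ⟨-1, Or.inr rfl, fun x hx => ?_⟩
    have h4 := (sdist_neg_iff hT h p).mp h3
    rcases lt_trichotomy (D x).re (D z).re with h5 | h5 | h5
    · -- the other side
      have h6 : ¬ sdist F.du w zm zp x < 0 := fun h7 => by
        have h8 := gp_pos_of_neg hT h h4 ((sdist_neg_iff hT h x).mp h7)
        rw [hopp p x hp hx hpre h5] at h8
        exact lt_irrefl _ h8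
      have h7 := habs x hx
      rw [abs_of_nonneg (not_lt.mp h6), abs_of_neg (sub_neg.mpr h5)] at h7
      rw [h7]
      ring
    · have h7 := habs x hx
      rw [h5, sub_self, abs_zero, abs_eq_zero] at h7
      rw [h7, h5]
      ring
    · have h6 := side_neg_of_gp hT h (hsame p x hp hx hpre h5) h4
      have h7 := habs x hx
      rw [abs_of_neg ((sdist_neg_iff hT h x).mpr h6), abs_of_pos (sub_pos.mpr h5)] at h7
      linarith
  · refine ⟨1, Or.inl rfl, fun x hx => ?_⟩
    have h4 := (sdist_pos_iff hT h p).mp h3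
    rcases lt_trichotomy (D x).re (D z).re with h5 | h5 | h5
    · have h6 : ¬ 0 < sdist F.du w zm zp x := fun h7 => by
        have h8 := gp_pos_of_pos hT h h4 ((sdist_pos_iff hT h x).mp h7)
        rw [hopp p x hp hx hpre h5] at h8
        exact lt_irrefl _ h8
      have h7 := habs x hx
      rw [abs_of_nonpos (not_lt.mp h6), abs_of_neg (sub_neg.mpr h5)] at h7
      linarith
    · have h7 := habs x hx
      rw [h5, sub_self, abs_zero, abs_eq_zero] at h7
      rw [h7, h5]
      ring
    · have h6 := side_pos_of_gp hT h (hsame p x hp hx hpre h5) h4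
      have h7 := habs x hx
      rw [abs_of_pos ((sdist_pos_iff hT h x).mpr h6), abs_of_pos (sub_pos.mpr h5)] at h7
      rw [h7]
      ring

end Pool.Agent.ANO3
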