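import Pool.Agent.ANO3.Surf.Defs

/-!
# ANO3, module Surf: uniformity (package SURF-UNIF)

`uniform`: let `K` be compact with `Γ K = ℍ` (`cocompact`), `K'` the closed `1`-neighbourhood of `K`
(compact, `ℍ` is a proper space: `IsCompact.cthickening`). `du` is uniformly continuous on
`K' × K'`, `du a a = 0`; move `a` into `K` by an element of `Γ` (an isometry of `ℍ`, `dist_smul`,
which preserves `du`). `upper`: the same with the maximum of `du` on `K × cthickening C K`. The same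
for `ds`.

`sep_near`: for a point `a` not in `U` all points `b ∉ U` near `a` are equivalent to `a`, uniformly
(`sep` and `uniform`). `countable_u`: the complement of `U` is a Lindelöf space (`ℍ` has a countable
basis), so there are countably many `a_i ∉ U` such that each `a ∉ U` is equivalent to some `a_i`;
and
`du p a = du p a_i`.
-/

set_option autoImplicit false

open scoped UpperHalfPlane MatrixGroups
open Set Filter Topology

namespace Pool.Agent.ANO3

open Pool.Agent.ANO Pool.Agent.ANO2 Pool.Agent.ANO3.Tree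

variable {S : SurfaceMap} (F : Flat S)

private theorem uniform_Unif {R : ClosedSurface} {d : ℍ → ℍ → ℝ} (h : IsDual R d) {ε : ℝ}
    (hε : 0 < ε) : ∃ δ > 0, ∀ a b : ℍ, dist a b < δ → d a b < ε := by
  obtain ⟨K, hK, hKc⟩ := R.cocompact
  have hK' : IsCompact (Metric.cthickening 1 K) := hK.cthickening
  have hKK := hK'.prod hK'
  have huc := hKK.uniformContinuousOn_of_continuous h.cont.continuousOn
  rw [Metric.uniformContinuousOn_iff] at huc
  obtain ⟨δ, hδ, H⟩ := huc ε hε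
  refine ⟨min δ 1, lt_min hδ one_pos, fun a b hab => ?_⟩
  obtain ⟨γ, hγ, hγa⟩ := hKc a
  have hd : dist (γ • a) (γ • b) = dist a b := dist_smul γ a b
  have ha' : γ • a ∈ Metric.cthickening 1 K := Metric.self_subset_cthickening K hγa
  have hb' : γ • b ∈ Metric.cthickening 1 K := by
    refine Metric.mem_cthickening_of_dist_le (γ • b) (γ • a) 1 K hγa ?_
    rw [dist_comm, hd]
    exact (hab.trans_le (min_le_right _ _)).le
  have h1 := H (γ • a, γ • b) ⟨ha', hb'⟩ (γ • a, γ • a) ⟨ha', ha'⟩ (by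
    rw [Prod.dist_eq, dist_self, max_lt_iff]
    refine ⟨hδ, ?_⟩
    show dist (γ • b) (γ • a) < δ
    rw [dist_comm, hd]
    exact hab.trans_le (min_le_left _ _))
  rw [Real.dist_eq] at h1
  have h2 : d (γ • a) (γ • b) = d a b := h.inv γ hγ a b
  have h3 : d (γ • a) (γ • a) = 0 := h.self _
  simp only [h2, h3, sub_zero] at h1
  exact (le_abs_self _).trans_lt h1

private theorem upper_Unif {R : ClosedSurface} {d : ℍ → ℍ → ℝ} (h : IsDual R d) (C : ℝ) :
    ∃ C₁ : ℝ, ∀ a b : ℍ, dist a b ≤ C → d a b ≤ C₁ := by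
  obtain ⟨K, hK, hKc⟩ := R.cocompact
  have hK' : IsCompact (Metric.cthickening C K) := hK.cthickening
  obtain ⟨C₁, hC₁⟩ := (hK.prod hK').bddAbove_image h.cont.continuousOn
  refine ⟨C₁, fun a b hab => ?_⟩
  obtain ⟨γ, hγ, hγa⟩ := hKc a
  have hd : dist (γ • a) (γ • b) = dist a b := dist_smul γ a b
  have hb' : γ • b ∈ Metric.cthickening C K := by
    refine Metric.mem_cthickening_of_dist_le (γ • b) (γ • a) C K hγa ?_
    rw [dist_comm, hd]
    exact hab
  have h1 := hC₁ (mem_image_of_mem _ (show (γ • a, γ • b) ∈ K ×ˢ Metric.cthickening C K from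
    ⟨hγa, hb'⟩))
  have h2 : d (γ • a) (γ • b) = d a b := h.inv γ hγ a b
  rw [← h2]
  exact h1

theorem Flat.uniform {ε : ℝ} (hε : 0 < ε) :
    ∃ δ > 0, ∀ a b : ℍ, dist a b < δ → F.du a b < ε ∧ F.ds a b < ε := by
  obtain ⟨δ₁, h1, H1⟩ := uniform_Unif F.dual_u hε
  obtain ⟨δ₂, h2, H2⟩ := uniform_Unif F.dual_s hε
  exact ⟨min δ₁ δ₂, lt_min h1 h2, fun a b hab =>
    ⟨H1 a b (hab.trans_le (min_le_left _ _)), H2 a b (hab.trans_le (min_le_right _ _))⟩⟩

theorem Flat.upper (C : ℝ) :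
    ∃ C₁ : ℝ, ∀ a b : ℍ, dist a b ≤ C → F.du a b ≤ C₁ ∧ F.ds a b ≤ C₁ := by
  obtain ⟨c₁, H1⟩ := upper_Unif F.dual_u C
  obtain ⟨c₂, H2⟩ := upper_Unif F.dual_s C
  exact ⟨max c₁ c₂, fun a b hab =>
    ⟨(H1 a b hab).trans (le_max_left _ _), (H2 a b hab).trans (le_max_right _ _)⟩⟩

theorem Flat.sep_near : ∃ δ > 0, ∀ a b : ℍ, a ∉ F.U → b ∉ F.U → dist a b < δ → F.Eqv a b := by
  obtain ⟨ε, hε, h⟩ := F.sep
  obtain ⟨δ, hδ, H⟩ := F.uniform hε
  exact ⟨δ, hδ, fun a b ha hb hab => h a b ha hb (H a b hab).1 (H a b hab).2⟩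

/-- countably many classes of points which are not in `U` -/
private theorem classes_Unif :
    ∃ A : Set ℍ, A.Countable ∧ A ⊆ F.Uᶜ ∧ ∀ a, a ∉ F.U → ∃ b ∈ A, F.Eqv a b := by
  obtain ⟨δ, hδ, H⟩ := F.sep_near
  obtain ⟨A, hA, hAd⟩ := TopologicalSpace.exists_countable_dense (F.Uᶜ : Set ℍ)
  refine ⟨(fun x : (F.Uᶜ : Set ℍ) => (x : ℍ)) '' A, hA.image _, ?_, fun a ha => ?_⟩
  · rintro _ ⟨x, -, rfl⟩
    exact x.2
  · obtain ⟨b, hb, hab⟩ := hAd.exists_dist_lt (⟨a, ha⟩ : (F.Uᶜ : Set ℍ)) hδ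
    exact ⟨b, ⟨b, hb, rfl⟩, H a b ha b.2 hab⟩

theorem Flat.countable_u (p : ℍ) : {t : ℝ | ∃ a, a ∉ F.U ∧ F.du p a = t}.Countable := by
  obtain ⟨A, hA, -, hAc⟩ := classes_Unif F
  refine (hA.image (F.du p)).mono ?_
  rintro t ⟨a, ha, rfl⟩
  obtain ⟨b, hb, hab⟩ := hAc a ha
  refine ⟨b, hb, ?_⟩
  rw [F.isTree_u.symm p b, F.isTree_u.symm p a]
  exact (F.isTree_u.congr_left hab.1 p).symm

private theorem trans_Unif {a b c : ℍ} (hab : F.Eqv a b) (hbc : F.Eqv b c) : F.Eqv a c :=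
  ⟨(F.isTree_u.congr_left hab.1 c).trans hbc.1, (F.isTree_s.congr_left hab.2 c).trans hbc.2⟩

/-- if `U` is empty the trees are points -/
theorem Flat.zero_of_empty (h : F.U = ∅) (a b : ℍ) : F.Eqv a b := by
  obtain ⟨δ, hδ, H⟩ := F.sep_near
  have hU : ∀ z : ℍ, z ∉ F.U := fun z => by rw [h]; exact notMem_empty z
  have h1 : IsOpen {z : ℍ | F.Eqv a z} := by
    rw [Metric.isOpen_iff]
    intro z hz
    refine ⟨δ, hδ, fun w hw => trans_Unif F hz (H z w (hU z) (hU w) ?_)⟩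
    rw [dist_comm]
    exact hw
  have h2 : IsClosed {z : ℍ | F.Eqv a z} := by
    rw [← isOpen_compl_iff, Metric.isOpen_iff]
    intro z hz
    refine ⟨δ, hδ, fun w hw hw' => hz ?_⟩
    exact trans_Unif F hw' (H w z (hU w) (hU z) hw)
  have h3 : {z : ℍ | F.Eqv a z} = univ :=
    IsClopen.eq_univ ⟨h2, h1⟩ ⟨a, F.isTree_u.self a, F.isTree_s.self a⟩
  have h4 : b ∈ {z : ℍ | F.Eqv a z} := by
    rw [h3]
    exact mem_univ b
  exact h4

/-- countably many classes of points which are not in `U` -/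
theorem Flat.countable_classes :
    ∃ A : Set ℍ, A.Countable ∧ A ⊆ F.Uᶜ ∧ ∀ a, a ∉ F.U → ∃ b ∈ A, F.Eqv a b := classes_Unif F

end Pool.Agent.ANO3
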