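import Pool.Agent.ANO3.Surf.Reg
import Pool.Agent.ANO3.Surf.Local
import Pool.Agent.ANO3.Surf.Unif

/-!
# ANO3, module Surf: separation by regular points (package SURF-SEP)

`exists_reg_between`: the set `{du p a | a ∉ U}` is countable (`countable_u`), so there is
`θ ∈ (α, β)` outside of it; by `exists_between` with `K = univ` there is `z` with `du p z = θ`,
`du z q = du p q - θ`. If `du z z' = 0` then `du p z' = θ`, so `z' ∈ U`: `two_arms` holds at `z`.
`p` and `q` are not in the same arm at `z` (`btw_iff_not_sameArm`), both have positive distance from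
`z`. Take a chart `D` at `z` and an arc `zm`, `zp` at distance `t` (`exists_arc_chart`), `zm`, `zp`
are not in the same arm; so (exchange `p`, `q` and the sign if necessary) `q` is in the arm of `zp`
or `q` is in the arm of `zm`; say `zp` (`two_arms` for `q, zm, zp`). Let
`0 < c < min t (gp z q zp / 2)`, `c < β - θ`. For `w` in the source with
`0 < (D w).re - (D z).re < c`: `du z w = (D w).re - (D z).re =: x`, `du w zp = t - x`, so `w` is
between `z` and `zp`, before the branch point of `[z, zp]` and `[z, q]`, hence between `z` and `q`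
(`btw_of_gp`), so between `p` and `q` with `du p w = θ + x` (`Btw.trans`). These `w` form an open
subset of `U` which is not empty (`D.target` is open), so it contains a periodic point (`dense`).

The s-version: apply it to `F.rev`.
-/

set_option autoImplicit false

open scoped UpperHalfPlane MatrixGroups
open Set Filter Topology

namespace Pool.Agent.ANO3

open Pool.Agent.ANO Pool.Agent.ANO2 Pool.Agent.ANO3.Tree

variable {S : SurfaceMap} {F : Flat S}

/-- regular periodic points near `z` in the direction of `q` -/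
private theorem near_Sep {z ze q : ℍ} {D : OpenPartialHomeomorph ℂ ℂ} (hD : F.IsChart z D)
    {s t : ℝ} (hs : s = 1 ∨ s = -1) (ht : 0 < t) (hze : (ze : ℂ) ∈ D.source)
    (hre : (D ze).re = (D z).re + s * t) (hsame : SameArm F.du z q ze) {c : ℝ} (hc : 0 < c) :
    ∃ w, F.Reg w ∧ Btw F.du z w q ∧ 0 < F.du z w ∧ F.du z w < c := by
  have hT := F.isTree_u
  have hs2 : s * s = 1 := by
    rcases hs with rfl | rfl <;> norm_num
  have hg : 0 < gp F.du z q ze := sameArm_iff_gp.mp hsame
  obtain ⟨t₀, ht₀, harc⟩ := Flat.exists_arc_chart hD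
  obtain ⟨c', hc'0, hc't, hc'g, hc'c, hc't₀⟩ : ∃ c' : ℝ, 0 < c' ∧ c' ≤ t ∧
      c' ≤ gp F.du z q ze / 2 ∧ c' ≤ c ∧ c' ≤ t₀ := by
    refine ⟨min (min t (gp F.du z q ze / 2)) (min c t₀), ?_, ?_, ?_, ?_, ?_⟩
    · exact lt_min (lt_min ht (by linarith)) (lt_min hc ht₀)
    · exact (min_le_left _ _).trans (min_le_left _ _)
    · exact (min_le_left _ _).trans (min_le_right _ _)
    · exact (min_le_right _ _).trans (min_le_left _ _)
    · exact (min_le_right _ _).trans (min_le_right _ _)
  have hopen : IsOpen {w : ℍ | (w : ℂ) ∈ D.source ∧ 0 < s * ((D w).re - (D z).re) ∧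
      s * ((D w).re - (D z).re) < c'} := by
    have h1 : IsOpen {y : ℂ | 0 < s * (y.re - (D z).re) ∧ s * (y.re - (D z).re) < c'} := by
      have h2 : Continuous fun y : ℂ => s * (y.re - (D z).re) :=
        continuous_const.mul (Complex.continuous_re.sub continuous_const)
      exact (isOpen_lt continuous_const h2).inter (isOpen_lt h2 continuous_const)
    exact (D.continuousOn.isOpen_inter_preimage D.open_source h1).preimage
      UpperHalfPlane.continuous_coe
  obtain ⟨w₀, hw₀s, hw₀⟩ : ∃ w₀ : ℍ, (w₀ : ℂ) ∈ D.source ∧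
      s * ((D w₀).re - (D z).re) = c' / 2 := by
    obtain ⟨xm, xp, hxm, hxp, hDm, hDp, -⟩ := harc (c' / 2) (by linarith) (by linarith)
    rcases hs with rfl | rfl
    · refine ⟨xp, hxp, ?_⟩
      rw [hDp, Complex.add_re, Complex.ofReal_re]
      ring
    · refine ⟨xm, hxm, ?_⟩
      rw [hDm, Complex.sub_re, Complex.ofReal_re]
      ring
  have hU : ∀ w : ℍ, (w : ℂ) ∈ D.source → w ∈ F.U := by
    intro w hw
    obtain ⟨w', h1, h2⟩ := hD.sub _ hw
    rwa [← UpperHalfPlane.ext h2]
  obtain ⟨w, ⟨hws, hw0, hwc⟩, hper⟩ := F.dense w₀ (hU w₀ hw₀s) _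
    (hopen.mem_nhds ⟨hw₀s, by rw [hw₀]; linarith, by rw [hw₀]; linarith⟩)
  have habs : ∀ x : ℝ, 0 ≤ s * x → |x| = s * x := by
    intro x hx
    rcases hs with rfl | rfl
    · rw [one_mul] at hx ⊢
      exact abs_of_nonneg hx
    · rw [neg_one_mul] at hx ⊢
      exact abs_of_nonpos (by linarith)
  have hzw : F.du z w = s * ((D w).re - (D z).re) := by
    rw [hD.du _ _ hD.mem hws, abs_sub_comm]
    exact habs _ hw0.le
  have hwe : F.du w ze = t - s * ((D w).re - (D z).re) := by
    have h1 : s * ((D ze).re - (D w).re) = t - s * ((D w).re - (D z).re) := by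
      rw [hre]
      linear_combination t * hs2
    rw [hD.du _ _ hws hze, abs_sub_comm, habs _ (by rw [h1]; linarith), h1]
  have hze' : F.du z ze = t := by
    have h1 : s * ((D ze).re - (D z).re) = t := by
      rw [hre]
      linear_combination t * hs2
    rw [hD.du _ _ hD.mem hze, abs_sub_comm, habs _ (by rw [h1]; exact ht.le), h1]
  refine ⟨w, ⟨hU w hws, hper⟩, ?_, by rw [hzw]; exact hw0, by rw [hzw]; linarith⟩
  refine btw_of_gp hT (a := ze) ?_ ?_
  · unfold Btw
    rw [hzw, hwe, hze']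
    ring
  · rw [hzw, gp_comm hT]
    linarith

theorem Flat.exists_reg_between {p q : ℍ} {α β : ℝ} (h0 : 0 ≤ α) (h1 : α < β)
    (h2 : β ≤ F.du p q) : ∃ w, F.Reg w ∧ Btw F.du p w q ∧ α < F.du p w ∧ F.du p w < β := by
  have hT := F.isTree_u
  obtain ⟨θ, hθ, hθ1, hθ2⟩ := ((F.countable_u p).dense_compl ℝ).exists_between h1
  obtain ⟨z, -, hz1, hz2⟩ := exists_between hT F.dual_u.cont isPreconnected_univ (mem_univ p)
    (mem_univ q) (h0.trans hθ1.le) (hθ2.le.trans h2)
  have hz : ∀ z', F.du z z' = 0 → z' ∈ F.U := by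
    intro z' hz'
    by_contra hcon
    refine hθ ⟨z', hcon, ?_⟩
    rw [hT.symm p z', ← hT.congr_left hz' p, hT.symm z p, hz1]
  have hzq : 0 < F.du z q := by
    rw [hz2]
    linarith
  obtain ⟨D, hD⟩ := F.exists_isChart (hz z (hT.self z))
  obtain ⟨t₀, ht₀, harc⟩ := Flat.exists_arc_chart hD
  obtain ⟨zm, zp, hm, hp, hDm, hDp, ha⟩ := harc (t₀ / 2) (by linarith) (by linarith)
  have key : ∃ w, F.Reg w ∧ Btw F.du z w q ∧ 0 < F.du z w ∧ F.du z w < β - θ := by
    have ht : (0 : ℝ) < t₀ / 2 := by linarith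
    rcases Flat.two_arms hz hzq (by rw [ha.left]; exact ht) (by rw [ha.right]; exact ht)
      with h3 | h3 | h3
    · refine near_Sep hD (Or.inr rfl) ht hm ?_ h3 (by linarith)
      rw [hDm, Complex.sub_re, Complex.ofReal_re]
      ring
    · refine near_Sep hD (Or.inl rfl) ht hp ?_ h3 (by linarith)
      rw [hDp, Complex.add_re, Complex.ofReal_re]
      ring
    · exfalso
      unfold SameArm at h3
      rw [ha.left, ha.right, ha.sum] at h3
      linarith
  obtain ⟨w, hw, hb, hw0, hw1⟩ := key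
  have hbz : Btw F.du q z p := by
    unfold Btw
    rw [hT.symm q z, hT.symm z p, hT.symm q p, hz1, hz2]
    ring
  obtain ⟨h4, h5⟩ := Btw.trans hT ((btw_comm hT).mp hb) hbz
  have h6 : F.du p w = θ + F.du z w := by
    unfold Btw at h5
    rw [hT.symm p w, ← h5, hT.symm z p, hz1, hT.symm w z]
    ring
  exact ⟨w, hw, (btw_comm hT).mp h4, by rw [h6]; linarith, by rw [h6]; linarith⟩

theorem Flat.exists_reg_between_s {p q : ℍ} {α β : ℝ} (h0 : 0 ≤ α) (h1 : α < β)
    (h2 : β ≤ F.ds p q) : ∃ w, F.Reg w ∧ Btw F.ds p w q ∧ α < F.ds p w ∧ F.ds p w < β := by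
  obtain ⟨w, hw, hb, h3, h4⟩ := Flat.exists_reg_between (F := F.rev) (p := p) (q := q) h0 h1 h2
  exact ⟨w, Flat.reg_rev.1 hw, hb, h3, h4⟩

/-- the set `U` is not empty if a tree is not a point -/
theorem Flat.exists_reg (h : F.U.Nonempty) : ∃ w, F.Reg w := by
  obtain ⟨a, ha⟩ := h
  obtain ⟨z, hz, hper⟩ := F.dense a ha F.U (F.isOpen.mem_nhds ha)
  exact ⟨z, hz, hper⟩

end Pool.Agent.ANO3
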