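import Pool.Agent.ANO3.Surf.Sep

/-!
# ANO3, module Surf: the points which are not in `U` (package SURF-VERTEX)

`exists_fixed`: let `K` be compact with `Γ K = ℍ`, `γ_n • f^[n] v ∈ K`. `f^[n] v ∉ U`. Let `δ` be
as in `sep_near`; two of the points `γ_n • f^[n] v`, `n < n'`, have distance `< δ` (`K` is totally
bounded), so they are equivalent: `du (γ_n • f^n v) (γ_n' • f^n' v) = 0` and the same for `ds`.
With `H₁ = γ_n • f^n`, `H₂ = γ_n' • f^n'` (`exists_liftPow`) the map `H = H₁⁻¹ ∘ H₂` is a lift of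
`f^(n' - n)` and `v`, `H v` are equivalent (`du_lift_zero`).

`corner_seq`: choose for `ε = 1 / (n + 1)` the points of `IsCorner`; they are regular.

`stab_u` (ST): let `γ ∈ Γ`, `v`, `γ • v` equivalent, `SameArm du v b (γ • b)`. Take a regular `z`
with `Btw du v z b` and `2 du v z ≤ gp du v b (γ • b)`. Then `γ • z` is between `γ • v` and
`γ • b`, so between `v` and `γ • b`, at the same distance `du v z`; `eq_zero_of_btw` gives
`du z (γ • z) = 0`, so `γ` acts trivially (`trivial_u`).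
-/

set_option autoImplicit false

open scoped UpperHalfPlane MatrixGroups
open Set Filter Topology

namespace Pool.Agent.ANO3

open Pool.Agent.ANO Pool.Agent.ANO2 Pool.Agent.ANO3.Tree

variable {S : SurfaceMap} {F : Flat S}

theorem Flat.exists_fixed {v : ℍ} (hv : v ∉ F.U) :
    ∃ (m : ℕ) (H : ℍ ≃ₜ ℍ), 0 < m ∧ IsLiftPow S m H ∧ F.Eqv v (H v) := by
  obtain ⟨K, hK, hKc⟩ := S.cocompact
  choose γ hγ hγK using fun n : ℕ => hKc (S.f^[n] v)
  choose H hH hHz using fun n : ℕ => exists_liftPow (S := S) n (hγ n)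
  obtain ⟨δ, hδ, hsep⟩ := F.sep_near
  have hU : ∀ n, H n v ∉ F.U := fun n h => hv ((F.mem_lift (hH n) v).1 h)
  have hpK : ∀ n, H n v ∈ K := fun n => by
    rw [hHz]
    exact hγK n
  obtain ⟨a, -, φ, hφ, hlim⟩ := hK.tendsto_subseq hpK
  have h1 : ∀ᶠ i in atTop, dist (H (φ i) v) a < δ / 2 := by
    have h2 := Metric.tendsto_nhds.1 hlim (δ / 2) (half_pos hδ)
    exact h2
  obtain ⟨i, hi⟩ := eventually_atTop.1 h1
  have h2 := hi i le_rfl
  have h3 := hi (i + 1) (Nat.le_succ i)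
  have h4 : dist (H (φ i) v) (H (φ (i + 1)) v) < δ := by
    have h5 := dist_triangle_right (H (φ i) v) (H (φ (i + 1)) v) a
    linarith
  have h5 := hsep _ _ (hU (φ i)) (hU (φ (i + 1))) h4
  have hlt : φ i < φ (i + 1) := hφ (Nat.lt_succ_self i)
  obtain ⟨m, hm⟩ := Nat.exists_eq_add_of_lt hlt
  obtain ⟨γ', hγ', hconj⟩ := (hH (φ i)).conj' (γ (φ (i + 1)) * (γ (φ i))⁻¹)
    (mul_mem (hγ _) (inv_mem (hγ _)))
  obtain ⟨G, hG, hGz⟩ := exists_liftPow (S := S) (m + 1) hγ'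
  refine ⟨m + 1, G, Nat.succ_pos m, hG, ?_⟩
  have h6 : H (φ i) (G v) = H (φ (i + 1)) v := by
    have e : S.f^[φ (i + 1)] v = S.f^[φ i] (S.f^[m + 1] v) := by
      rw [hm, add_assoc, Function.iterate_add_apply _ (φ i) (m + 1)]
    rw [hGz, hconj, hHz, hHz, smul_smul, inv_mul_cancel_right, e]
  rw [← h6] at h5
  exact ⟨(F.du_lift_zero (hH (φ i)) v (G v)).1 h5.1, (F.ds_lift_zero (hH (φ i)) v (G v)).1 h5.2⟩

/-- `b` is in a quadrant at `v`. -/
def Flat.Corner (F : Flat S) (v b : ℍ) : Prop :=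
  ∀ ε > 0, ∃ z, F.Reg z ∧ F.du v z < ε ∧ F.ds v z < ε ∧ Btw F.du v z b ∧ Btw F.ds v z b

theorem Flat.exists_corner {v : ℍ} (hv : IsCorner S F.U F.du F.ds v) : ∃ b, F.Corner v b := by
  obtain ⟨b, hb⟩ := hv
  refine ⟨b, fun ε hε => ?_⟩
  obtain ⟨z, hz, h1, h2⟩ := hb ε hε
  exact ⟨z, ⟨hz, h1⟩, h2⟩

theorem Flat.Corner.rev {v b : ℍ} (h : F.Corner v b) : F.rev.Corner v b := by
  intro ε hε
  obtain ⟨z, hz, h1, h2, h3, h4⟩ := h ε hε
  exact ⟨z, Flat.reg_rev.2 hz, h2, h1, h4, h3⟩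

theorem Flat.Corner.seq {v b : ℍ} (hb : F.Corner v b) : ∃ z : ℕ → ℍ,
    (∀ n, F.Reg (z n) ∧ Btw F.du v (z n) b ∧ Btw F.ds v (z n) b) ∧
      Tendsto (fun n => F.du v (z n)) atTop (𝓝 0) ∧
      Tendsto (fun n => F.ds v (z n)) atTop (𝓝 0) := by
  choose z h1 h2 h3 h4 h5 using fun n : ℕ => hb (1 / ((n : ℝ) + 1)) Nat.one_div_pos_of_nat
  refine ⟨z, fun n => ⟨h1 n, h4 n, h5 n⟩, ?_, ?_⟩
  · exact squeeze_zero (fun n => F.du_nonneg _ _) (fun n => (h2 n).le)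
      tendsto_one_div_add_atTop_nhds_zero_nat
  · exact squeeze_zero (fun n => F.ds_nonneg _ _) (fun n => (h3 n).le)
      tendsto_one_div_add_atTop_nhds_zero_nat

theorem Flat.Corner.stab_u {v b : ℍ} (hv : v ∉ F.U) (hb : F.Corner v b) {γ : SL(2, ℝ)}
    (hγ : γ ∈ S.Γ) (h0 : F.Eqv v (γ • v)) (h1 : SameArm F.du v b (γ • b)) (z : ℍ) :
    γ • z = z := by
  have ht := F.isTree_u
  have hg : 0 < gp F.du v b (γ • b) := sameArm_iff_gp.1 h1
  obtain ⟨w, hw, hw1, -, hw2, -⟩ := hb (gp F.du v b (γ • b) / 2) (half_pos hg)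
  have h2 : F.du (γ • v) v = 0 := by
    rw [ht.symm]
    exact h0.1
  have h3 : Btw F.du (γ • v) (γ • w) (γ • b) := by
    unfold Btw at hw2 ⊢
    rw [F.du_smul hγ, F.du_smul hγ, F.du_smul hγ]
    exact hw2
  have h4 : Btw F.du v (γ • w) (γ • b) :=
    Btw.congr ht (ht.self _) h2 (ht.self _) h3
  have h5 : F.du v w = F.du v (γ • w) := by
    rw [ht.congr_left h0.1 (γ • w), F.du_smul hγ]
  have h6 := eq_zero_of_btw ht hw2 h4 h5 (by linarith)
  exact hw.trivial_u hγ h6 z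

theorem Flat.Corner.stab_s {v b : ℍ} (hv : v ∉ F.U) (hb : F.Corner v b) {γ : SL(2, ℝ)}
    (hγ : γ ∈ S.Γ) (h0 : F.Eqv v (γ • v)) (h1 : SameArm F.ds v b (γ • b)) (z : ℍ) :
    γ • z = z :=
  Flat.Corner.stab_u (F := F.rev) hv hb.rev hγ ⟨h0.2, h0.1⟩ h1 z

end Pool.Agent.ANO3
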