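import Pool.Agent.ANO3.Defs
import Pool.Agent.ANO3.Tree.Basic

/-!
# ANO3, module Surf: one surface (definitions)

Paper proof `/team-store/ANO3_Blueprint.md`, section 1.
-/

set_option autoImplicit false

open scoped UpperHalfPlane MatrixGroups
open Set Filter Topology

namespace Pool.Agent.ANO3

open Pool.Agent.ANO Pool.Agent.ANO2 Pool.Agent.ANO3.Tree

/-- The part of a normal form which is invariant under `f ↦ f⁻¹`: the pseudo-Anosov part with its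
two trees. -/
structure Flat (S : SurfaceMap) where
  U : Set ℍ
  l : ℝ
  L : ℝ
  du : ℍ → ℍ → ℝ
  ds : ℍ → ℍ → ℝ
  isOpen : IsOpen U
  inv : ∀ γ ∈ S.Γ, ∀ z, γ • z ∈ U ↔ z ∈ U
  inv_f : ∀ z, S.f z ∈ U ↔ z ∈ U
  one_lt : 1 < l
  dual_u : IsDual S.toClosedSurface du
  dual_s : IsDual S.toClosedSurface ds
  scale_u : ∀ a b, l * du a b ≤ du (S.f a) (S.f b) ∧ du (S.f a) (S.f b) ≤ L * du a b
  scale_s : ∀ a b, l * ds (S.f a) (S.f b) ≤ ds a b ∧ ds a b ≤ L * ds (S.f a) (S.f b)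
  chart : ∀ a ∈ U, ∃ D : OpenPartialHomeomorph ℂ ℂ, (a : ℂ) ∈ D.source ∧
    (∀ z ∈ D.source, ∃ z' ∈ U, (z' : ℂ) = z) ∧
    ContDiffOn ℝ 1 D D.source ∧ ContDiffOn ℝ 1 D.symm D.target ∧
    ∀ z z' : ℍ, (z : ℂ) ∈ D.source → (z' : ℂ) ∈ D.source →
      du z z' = |(D z).re - (D z').re| ∧ ds z z' = |(D z).im - (D z').im|
  emb : ∀ a ∈ U, ∀ N ∈ 𝓝 a, ∃ ε > 0, ∀ z, du a z < ε → ds a z < ε → z ∈ N
  sep : ∃ ε > 0, ∀ a b : ℍ, a ∉ U → b ∉ U → du a b < ε → ds a b < ε → du a b = 0 ∧ ds a b = 0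
  dense : ∀ a ∈ U, ∀ N ∈ 𝓝 a, ∃ z ∈ N, IsPeriodic S z

/-- The flat part of a normal form. -/
def NormalForm.flat {S : SurfaceMap} (N : NormalForm S) : Flat S where
  U := N.U
  l := N.l
  L := N.L
  du := N.du
  ds := N.ds
  isOpen := N.isOpen
  inv := N.inv
  inv_f := N.inv_f
  one_lt := N.one_lt
  dual_u := N.dual_u
  dual_s := N.dual_s
  scale_u := N.scale_u
  scale_s := N.scale_s
  chart := N.chart
  emb := N.emb
  sep := N.sep
  dense := N.dense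

variable {S : SurfaceMap}

/-- `w` is a regular periodic point. -/
def Flat.Reg (F : Flat S) (w : ℍ) : Prop := w ∈ F.U ∧ IsPeriodic S w

/-- `H` is a lift of the `m`-th power of the surface map. -/
def IsLiftPow (S : SurfaceMap) (m : ℕ) (H : ℍ ≃ₜ ℍ) : Prop :=
  ∃ γ ∈ S.Γ, ∀ z, H z = γ • S.f^[m] z

/-- `D` is a chart at `a` as in the definition of a normal form. -/
structure Flat.IsChart (F : Flat S) (a : ℍ) (D : OpenPartialHomeomorph ℂ ℂ) : Prop where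
  mem : (a : ℂ) ∈ D.source
  sub : ∀ z ∈ D.source, ∃ z' ∈ F.U, (z' : ℂ) = z
  smooth : ContDiffOn ℝ 1 D D.source
  smooth_symm : ContDiffOn ℝ 1 D.symm D.target
  du : ∀ z z' : ℍ, (z : ℂ) ∈ D.source → (z' : ℂ) ∈ D.source →
    F.du z z' = |(D z).re - (D z').re|
  ds : ∀ z z' : ℍ, (z : ℂ) ∈ D.source → (z' : ℂ) ∈ D.source →
    F.ds z z' = |(D z).im - (D z').im|

theorem Flat.exists_isChart (F : Flat S) {a : ℍ} (ha : a ∈ F.U) : ∃ D, F.IsChart a D := by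
  obtain ⟨D, h1, h2, h3, h4, h5⟩ := F.chart a ha
  exact ⟨D, h1, h2, h3, h4, fun z z' hz hz' => (h5 z z' hz hz').1,
    fun z z' hz hz' => (h5 z z' hz hz').2⟩

theorem Flat.isTree_u (F : Flat S) : IsTree F.du :=
  ⟨F.dual_u.self, F.dual_u.symm, F.dual_u.triangle, F.dual_u.tree⟩

theorem Flat.isTree_s (F : Flat S) : IsTree F.ds :=
  ⟨F.dual_s.self, F.dual_s.symm, F.dual_s.triangle, F.dual_s.tree⟩

/-- Two points which are not separated by the two trees. -/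
def Flat.Eqv (F : Flat S) (a b : ℍ) : Prop := F.du a b = 0 ∧ F.ds a b = 0

end Pool.Agent.ANO3
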