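import Pool.Agent.ANO3.Surf.Defs

/-!
# ANO3, module Surf: the inverse map (package SURF-REV)

`rev S` has the lift `f.symm`; `F.rev` exchanges `du` and `ds`. `normalizes` of `f.symm`: from
`S.normalizes'` (`f (γ • z) = γ' • f z`, `z = f.symm w`). Charts: compose `D` with the exchange
`x + i y ↦ y + i x` of the coordinates, a linear homeomorphism of `ℂ`
(`OpenPartialHomeomorph.transHomeomorph`). Periodic points: `γ • f^m z = z` gives
`f^m z = γ⁻¹ • z`, so `z = (f.symm)^m (γ⁻¹ • z) = γ' • (f.symm)^m z` (induction: `(f.symm)^m`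
normalizes `Γ`).
-/

set_option autoImplicit false

open scoped UpperHalfPlane MatrixGroups
open Set Filter Topology

namespace Pool.Agent.ANO3

open Pool.Agent.ANO Pool.Agent.ANO2 Pool.Agent.ANO3.Tree

theorem normalizes_symm (S : SurfaceMap) : ∀ γ ∈ S.Γ, ∃ γ' ∈ S.Γ, ∀ z : ℍ,
    S.f.symm (γ • z) = γ' • S.f.symm z := by
  intro γ hγ
  obtain ⟨γ₁, h1, h2⟩ := S.normalizes' γ hγ
  refine ⟨γ₁, h1, fun z => ?_⟩
  rw [Homeomorph.symm_apply_eq, h2, Homeomorph.apply_symm_apply]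

theorem normalizes_symm' (S : SurfaceMap) : ∀ γ' ∈ S.Γ, ∃ γ ∈ S.Γ, ∀ z : ℍ,
    S.f.symm (γ • z) = γ' • S.f.symm z := by
  intro γ hγ
  obtain ⟨γ₁, h1, h2⟩ := S.normalizes γ hγ
  refine ⟨γ₁, h1, fun z => ?_⟩
  rw [Homeomorph.symm_apply_eq, h2, Homeomorph.apply_symm_apply]

private theorem iter_symm_Rev (S : SurfaceMap) (m : ℕ) : ∀ γ ∈ S.Γ, ∃ γ' ∈ S.Γ, ∀ z : ℍ,
    S.f.symm^[m] (γ • z) = γ' • S.f.symm^[m] z := by
  induction m with
  | zero => exact fun γ hγ => ⟨γ, hγ, fun z => rfl⟩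
  | succ m ih =>
    intro γ hγ
    obtain ⟨γ₁, h1, h2⟩ := normalizes_symm S γ hγ
    obtain ⟨γ₂, h3, h4⟩ := ih γ₁ h1
    refine ⟨γ₂, h3, fun z => ?_⟩
    rw [Function.iterate_succ_apply, Function.iterate_succ_apply, h2, h4]

private theorem iter_left_Rev (S : SurfaceMap) (m : ℕ) (z : ℍ) :
    S.f.symm^[m] (S.f^[m] z) = z :=
  Function.LeftInverse.iterate (f := S.f) (g := S.f.symm)
    (fun x => Homeomorph.symm_apply_apply S.f x) m z

private theorem lift_symm_Rev (S : SurfaceMap) (m : ℕ) (γ : SL(2, ℝ)) (hγ : γ ∈ S.Γ) :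
    ∃ γ' ∈ S.Γ, ∀ z w : ℍ, γ • S.f^[m] z = w → z = γ' • S.f.symm^[m] w := by
  obtain ⟨γ', h1, h2⟩ := iter_symm_Rev S m γ⁻¹ (S.Γ.inv_mem hγ)
  refine ⟨γ', h1, fun z w h => ?_⟩
  rw [← h2, ← h, inv_smul_smul, iter_left_Rev]

/-- The inverse surface map. -/
noncomputable def rev (S : SurfaceMap) : SurfaceMap :=
  { S.toClosedSurface with
    f := S.f.symm
    normalizes := normalizes_symm S
    normalizes' := normalizes_symm' S }

private theorem periodic_Rev {S : SurfaceMap} {z : ℍ} (h : IsPeriodic S z) :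
    IsPeriodic (rev S) z := by
  obtain ⟨m, γ, hm, hγ, h1⟩ := h
  obtain ⟨γ', h2, h3⟩ := lift_symm_Rev S m γ hγ
  exact ⟨m, γ', hm, h2, (h3 z z h1).symm⟩

theorem isPeriodic_rev {S : SurfaceMap} {z : ℍ} : IsPeriodic (rev S) z ↔ IsPeriodic S z :=
  ⟨fun h => periodic_Rev h, fun h => periodic_Rev h⟩

/-- exchange of the real and the imaginary part -/
private noncomputable def swap_Rev : ℂ ≃L[ℝ] ℂ :=
  Complex.equivRealProdCLM.trans
    ((ContinuousLinearEquiv.prodComm ℝ ℝ ℝ).trans Complex.equivRealProdCLM.symm)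

private theorem swap_re_Rev (z : ℂ) : (swap_Rev z).re = z.im := rfl

private theorem swap_im_Rev (z : ℂ) : (swap_Rev z).im = z.re := rfl

theorem chart_rev {S : SurfaceMap} (F : Flat S) : ∀ a ∈ F.U, ∃ D : OpenPartialHomeomorph ℂ ℂ,
    (a : ℂ) ∈ D.source ∧ (∀ z ∈ D.source, ∃ z' ∈ F.U, (z' : ℂ) = z) ∧
    ContDiffOn ℝ 1 D D.source ∧ ContDiffOn ℝ 1 D.symm D.target ∧
    ∀ z z' : ℍ, (z : ℂ) ∈ D.source → (z' : ℂ) ∈ D.source →
      F.ds z z' = |(D z).re - (D z').re| ∧ F.du z z' = |(D z).im - (D z').im| := by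
  intro a ha
  obtain ⟨D, h1, h2, h3, h4, h5⟩ := F.chart a ha
  refine ⟨D.transHomeomorph swap_Rev.toHomeomorph, h1, h2, ?_, ?_, ?_⟩
  · exact swap_Rev.contDiff.comp_contDiffOn h3
  · exact h4.comp swap_Rev.symm.contDiff.contDiffOn (fun z hz => hz)
  · intro z z' hz hz'
    obtain ⟨h6, h7⟩ := h5 z z' hz hz'
    exact ⟨h7, h6⟩

theorem inv_f_symm {S : SurfaceMap} (F : Flat S) (z : ℍ) : S.f.symm z ∈ F.U ↔ z ∈ F.U := by
  rw [← F.inv_f (S.f.symm z), Homeomorph.apply_symm_apply]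

theorem scale_symm_u {S : SurfaceMap} (F : Flat S) (a b : ℍ) :
    F.l * F.ds a b ≤ F.ds (S.f.symm a) (S.f.symm b) ∧
      F.ds (S.f.symm a) (S.f.symm b) ≤ F.L * F.ds a b := by
  have h := F.scale_s (S.f.symm a) (S.f.symm b)
  rwa [Homeomorph.apply_symm_apply, Homeomorph.apply_symm_apply] at h

theorem scale_symm_s {S : SurfaceMap} (F : Flat S) (a b : ℍ) :
    F.l * F.du (S.f.symm a) (S.f.symm b) ≤ F.du a b ∧
      F.du a b ≤ F.L * F.du (S.f.symm a) (S.f.symm b) := by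
  have h := F.scale_u (S.f.symm a) (S.f.symm b)
  rwa [Homeomorph.apply_symm_apply, Homeomorph.apply_symm_apply] at h

/-- The flat part for the inverse map. -/
noncomputable def Flat.rev {S : SurfaceMap} (F : Flat S) : Flat (rev S) where
  U := F.U
  l := F.l
  L := F.L
  du := F.ds
  ds := F.du
  isOpen := F.isOpen
  inv := F.inv
  inv_f := inv_f_symm F
  one_lt := F.one_lt
  dual_u := F.dual_s
  dual_s := F.dual_u
  scale_u := scale_symm_u F
  scale_s := scale_symm_s F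
  chart := chart_rev F
  emb := fun a ha N hN => by
    obtain ⟨ε, hε, h⟩ := F.emb a ha N hN
    exact ⟨ε, hε, fun z h1 h2 => h z h2 h1⟩
  sep := by
    obtain ⟨ε, hε, h⟩ := F.sep
    exact ⟨ε, hε, fun a b ha hb h1 h2 => (h a b ha hb h2 h1).symm⟩
  dense := fun a ha N hN => by
    obtain ⟨z, hz, h⟩ := F.dense a ha N hN
    exact ⟨z, hz, isPeriodic_rev.2 h⟩

theorem Flat.reg_rev {S : SurfaceMap} {F : Flat S} {w : ℍ} : F.rev.Reg w ↔ F.Reg w :=
  and_congr Iff.rfl isPeriodic_rev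

theorem Flat.eqv_rev {S : SurfaceMap} {F : Flat S} {a b : ℍ} : F.rev.Eqv a b ↔ F.Eqv a b :=
  and_comm

/-- `H⁻¹` is a lift of the `m`-th power of the inverse map. -/
theorem IsLiftPow.symm {S : SurfaceMap} {m : ℕ} {H : ℍ ≃ₜ ℍ} (h : IsLiftPow S m H) :
    IsLiftPow (rev S) m H.symm := by
  obtain ⟨γ, hγ, h1⟩ := h
  obtain ⟨γ', h2, h3⟩ := lift_symm_Rev S m γ hγ
  refine ⟨γ', h2, fun z => h3 (H.symm z) z ?_⟩
  rw [← h1, Homeomorph.apply_symm_apply]

end Pool.Agent.ANO3
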